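import Mathlib

set_option autoImplicit false

/-! Toric log resolutions of monomial ideals and their topological zeta functions. -/

namespace Pool.Agent.H628R4.TZ

/-- The order of the monomial ideal `(x ^ v j)_j` along the toric divisor of the ray `ρ`. -/
noncomputable def ordAlong {r N : ℕ} (v : Fin r → Fin N → ℕ) (ρ : Fin N → ℕ) : ℕ :=
  ⨅ j, ∑ l, ρ l * v j l

/-- The maximal cones of a smooth fan with support the positive orthant on whose toric variety
the ideal `(x ^ v j)_j` becomes principal: `ray k i` is the `i`-th generator of the `k`-th cone.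
(Cones of a fan have disjoint interiors; nothing else about their intersections is required.) -/
structure ToricResolution {r N : ℕ} (v : Fin r → Fin N → ℕ) where
  n : ℕ
  ray : Fin n → Fin N → Fin N → ℕ
  unimodular : ∀ k, IsUnit (Matrix.det (Matrix.of fun i l => (ray k i l : ℤ)))
  cover : ∀ x : Fin N → ℝ, (∀ l, 0 ≤ x l) →
    ∃ k, ∃ y : Fin N → ℝ, (∀ i, 0 ≤ y i) ∧ ∀ l, x l = ∑ i, y i * ray k i l
  disjoint : ∀ k k', k ≠ k' → ∀ y y' : Fin N → ℝ, (∀ i, 0 < y i) → (∀ i, 0 < y' i) →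
    ∃ l, ∑ i, y i * ray k i l ≠ ∑ i, y' i * ray k' i l
  principal : ∀ k, ∃ j, ∀ j' i, ∑ l, ray k i l * v j l ≤ ∑ l, ray k i l * v j' l

/-- The topological zeta function `∑_σ ∏_{ρ ∈ σ} 1 / (a_ρ s + k_ρ + 1)`: the sum is over the
maximal cones (the torus fixed points; all other strata have Euler characteristic zero),
`a_ρ = ordAlong v ρ` and `k_ρ + 1` is the sum of the coordinates of `ρ`. -/
noncomputable def topZeta {r N : ℕ} {v : Fin r → Fin N → ℕ} (R : ToricResolution v) :
    RatFunc ℂ :=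
  ∑ k, ∏ i, ((ordAlong v (R.ray k i) : RatFunc ℂ) * RatFunc.X +
    ((∑ l, R.ray k i l : ℕ) : RatFunc ℂ))⁻¹

open MvPolynomial

/-- The Weyl algebra, acting on polynomials: generated by the multiplications by the variables
and the partial derivatives. -/
noncomputable def weyl (N : ℕ) : Subalgebra ℂ (Module.End ℂ (MvPolynomial (Fin N) ℂ)) :=
  Algebra.adjoin ℂ
    (Set.range (fun i => LinearMap.mulLeft ℂ (X i : MvPolynomial (Fin N) ℂ)) ∪
      Set.range (fun i => ((pderiv i : Derivation ℂ (MvPolynomial (Fin N) ℂ)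
        (MvPolynomial (Fin N) ℂ)) : MvPolynomial (Fin N) ℂ →ₗ[ℂ] MvPolynomial (Fin N) ℂ)))

/-- An element of `D[s_1, …, s_r]` (finitely many coefficients `P β ∈ D`, one for each monomial
`s ^ β`), evaluated at `s` and applied to the polynomial `g`. -/
noncomputable def applyAt {r N : ℕ} (P : (Fin r →₀ ℕ) →₀ weyl N) (s : Fin r → ℕ)
    (g : MvPolynomial (Fin N) ℂ) : MvPolynomial (Fin N) ℂ :=
  P.sum fun β Q => (∏ j, (s j : ℂ) ^ β j) • (Q : Module.End ℂ (MvPolynomial (Fin N) ℂ)) g

/-- `b` satisfies a functional equation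
`b(s_1 + ⋯ + s_r) ∏ f_j ^ s_j = ∑_c P_c ∏_{c_j < 0} binom(s_j, -c_j) ∏ f_j ^ (s_j + c_j)`,
with `P_c ∈ D[s_1, …, s_r]` and finitely many `c ∈ ℤ ^ r` with `∑ c_j = 1`. The equation is
stated for all `s ∈ ℕ ^ r`; this is equivalent to the formal equation, as the coefficients are
polynomials in `s`. (If `s_j + c_j < 0` for some `j` then the binomial coefficient is zero.) -/
def IsFunctionalEq {r N : ℕ} (f : Fin r → MvPolynomial (Fin N) ℂ) (b : Polynomial ℂ) : Prop :=
  ∃ (S : Finset (Fin r → ℤ)) (P : (Fin r → ℤ) → ((Fin r →₀ ℕ) →₀ weyl N)),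
    (∀ c ∈ S, ∑ j, c j = 1) ∧
    ∀ s : Fin r → ℕ,
      C (b.eval ((∑ j, s j : ℕ) : ℂ)) * ∏ j, f j ^ s j =
        ∑ c ∈ S, applyAt (P c) s
          (C ((∏ j, (if c j < 0 then (s j).choose (-c j).toNat else 1) : ℕ) : ℂ) *
            ∏ j, f j ^ ((s j : ℤ) + c j).toNat)

/-- The Bernstein-Sato polynomial of the ideal generated by the `f_j`: the monic polynomial of
least degree which satisfies a functional equation. -/
def IsBernsteinSato {r N : ℕ} (f : Fin r → MvPolynomial (Fin N) ℂ) (b : Polynomial ℂ) : Prop :=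
  b.Monic ∧ IsFunctionalEq f b ∧
    ∀ b' : Polynomial ℂ, b'.Monic → IsFunctionalEq f b' → b.natDegree ≤ b'.natDegree

/-- The monomials `x ^ (v j)`. -/
noncomputable def mons {r N : ℕ} (v : Fin r → Fin N → ℕ) (j : Fin r) : MvPolynomial (Fin N) ℂ :=
  ∏ l, X l ^ v j l

end Pool.Agent.H628R4.TZ
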