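import Pool.Agent.H628R4.TZ.Fun

set_option autoImplicit false

namespace Pool.Agent.H628R4.TZ

open MeasureTheory MvPolynomial Set Filter Topology

lemma one_dim (g g' : ℝ → ℂ) (lam : ℝ) (hl : 0 < lam) (hg : ∀ t, HasDerivAt g (g' t) t)
    (K K' : ℝ) (hK : ∀ t, ‖g t‖ ≤ K) (hK' : ∀ t, ‖g' t‖ ≤ K') (hc' : Continuous g') :
    ∫ t in Ioi (0:ℝ), ((Real.exp (-lam * t) : ℝ) : ℂ) * (lam * g t - g' t) = g 0 := by
  have hgc : Continuous g := continuous_iff_continuousAt.2 fun t => (hg t).continuousAt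
  have h1 : ∀ t, HasDerivAt (fun t => -(((Real.exp (-lam * t) : ℝ) : ℂ) * g t))
      (((Real.exp (-lam * t) : ℝ) : ℂ) * (lam * g t - g' t)) t := by
    intro t
    have h2 : HasDerivAt (fun t : ℝ => Real.exp (-lam * t)) (Real.exp (-lam * t) * (-lam)) t := by
      have := (hasDerivAt_id t).const_mul (-lam)
      simpa using this.exp
    refine ((h2.ofReal_comp).mul (hg t)).neg.congr_deriv ?_
    push_cast
    ring
  have hint : IntegrableOn (fun t => ((Real.exp (-lam * t) : ℝ) : ℂ) * (lam * g t - g' t))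
      (Ioi 0) := by
    have h3 : IntegrableOn (fun t => ((Real.exp (-lam * t) : ℝ) : ℂ)) (Ioi 0) :=
      (exp_neg_integrableOn_Ioi 0 hl).ofReal
    refine Integrable.mul_bdd (c := lam * K + K') h3 ?_ (Eventually.of_forall fun t => ?_)
    · exact ((continuous_const.mul hgc).sub hc').aestronglyMeasurable
    · refine (norm_sub_le _ _).trans (add_le_add ?_ (hK' t))
      rw [norm_mul, Complex.norm_real, Real.norm_of_nonneg hl.le]
      exact mul_le_mul_of_nonneg_left (hK t) hl.le
  have ht : Tendsto (fun t => -(((Real.exp (-lam * t) : ℝ) : ℂ) * g t)) atTop (𝓝 0) := by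
    have h4 : Tendsto (fun t : ℝ => Real.exp (-lam * t) * K) atTop (𝓝 0) := by
      have : Tendsto (fun t : ℝ => Real.exp (-lam * t)) atTop (𝓝 0) := by
        refine Real.tendsto_exp_atBot.comp ?_
        exact tendsto_id.const_mul_atTop_of_neg (by linarith)
      simpa using this.mul_const K
    refine squeeze_zero_norm (fun t => ?_) h4
    rw [norm_neg, norm_mul, Complex.norm_real, Real.norm_of_nonneg (Real.exp_pos _).le]
    exact mul_le_mul_of_nonneg_left (hK t) (Real.exp_pos _).le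
  have := integral_Ioi_of_hasDerivAt_of_tendsto' (fun x _ => h1 x) hint ht
  rw [this]
  simp

variable {r n : ℕ} {φ : ℕ → ℝ → ℝ}

lemma Φ_step (h : DSeq φ) (S : Finset (Fin (n+1))) (lam : Fin (n+1) → ℝ) (hl : ∀ i, 0 < lam i)
    (a : Fin r → Fin (n+1) → ℝ) (y0 : Fin r → ℝ) (i : Fin (n+1)) (hi : i ∉ S)
    (p : MvPolynomial (Fin r) ℂ) :
    Φ φ S lam a y0 ((C ((lam i : ℝ) : ℂ) + Lf (fun j => a j i)) * p) =
      Φ φ (insert i S) lam a y0 p := by
  unfold Φ
  rw [pi_split _ i _ (int_integrable h S lam hl a y0 _),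
    pi_split _ i _ (int_integrable h (insert i S) lam hl a y0 _)]
  have hms : (fun j => ms (insert i S) (i.succAbove j)) = fun j => ms S (i.succAbove j) := by
    funext j
    unfold ms
    have : i.succAbove j ≠ i := Fin.succAbove_ne i j
    simp [this]
  rw [hms]
  refine integral_congr_ae (Eventually.of_forall fun x' => ?_)
  have hw : ∀ t : ℝ, wt lam (i.insertNth (α := fun _ => ℝ) t x') =
      ((Real.exp (-lam i * t) : ℝ) : ℂ) *
        ∏ j, ((Real.exp (-lam (i.succAbove j) * x' j) : ℝ) : ℂ) := by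
    intro t
    unfold wt
    rw [Fin.prod_univ_succAbove _ i]
    simp
  set w := ∏ j, ((Real.exp (-lam (i.succAbove j) * x' j) : ℝ) : ℂ) with hwdef
  have hy : ∀ (t : ℝ) (j : Fin r),
      HasDerivAt (fun t => Y a y0 (i.insertNth (α := fun _ => ℝ) t x') j) (a j i) t := by
    intro t j
    have h5 : (fun t => Y a y0 (i.insertNth (α := fun _ => ℝ) t x') j) = fun t : ℝ =>
        a j i * t + (∑ k, a j (i.succAbove k) * x' k + y0 j) := by
      funext t
      unfold Y
      rw [Fin.sum_univ_succAbove _ i]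
      simp only [Fin.insertNth_apply_same, Fin.insertNth_apply_succAbove]
      ring
    rw [h5]
    simpa using ((hasDerivAt_id t).const_mul (a j i)).add_const
      (∑ k, a j (i.succAbove k) * x' k + y0 j)
  have hmsi : ms S i = volume.restrict (Ioi 0) := by simp [ms, hi]
  have hmsi' : ms (insert i S) i = Measure.dirac 0 := by simp [ms]
  simp only [hmsi, hmsi']
  rw [integral_dirac]
  simp only [hw]
  obtain ⟨K, hK⟩ := D_bdd h p
  obtain ⟨K', hK'⟩ := D_bdd h (Lf (fun j => a j i) * p)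
  have hcont : Continuous (fun t : ℝ => Y a y0 (i.insertNth (α := fun _ => ℝ) t x')) := by
    refine continuous_pi fun j => ?_
    exact continuous_iff_continuousAt.2 fun t => (hy t j).continuousAt
  have h6 := one_dim (fun t => D φ (Y a y0 (i.insertNth (α := fun _ => ℝ) t x')) p)
    (fun t => -(D φ (Y a y0 (i.insertNth (α := fun _ => ℝ) t x')) (Lf (fun j => a j i) * p)))
    (lam i) (hl i) (fun t => D_hasDerivAt h p (fun j => a j i) _ t (hy t)) K K'
    (fun t => hK _) (fun t => by rw [norm_neg]; exact hK' _)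
    ((D_cont h _).comp hcont).neg
  have h7 : ∀ t : ℝ, (((Real.exp (-lam i * t) : ℝ) : ℂ) * w) *
      D φ (Y a y0 (i.insertNth (α := fun _ => ℝ) t x'))
        ((C ((lam i : ℝ) : ℂ) + Lf (fun j => a j i)) * p) =
      w * (((Real.exp (-lam i * t) : ℝ) : ℂ) *
        (lam i * D φ (Y a y0 (i.insertNth (α := fun _ => ℝ) t x')) p -
        -(D φ (Y a y0 (i.insertNth (α := fun _ => ℝ) t x')) (Lf (fun j => a j i) * p)))) := by
    intro t
    rw [add_mul, map_add, C_mul', map_smul, smul_eq_mul]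
    ring
  simp only [h7]
  rw [integral_const_mul, h6]
  simp

lemma Φ_steps (h : DSeq φ) (S : Finset (Fin (n+1))) (lam : Fin (n+1) → ℝ) (hl : ∀ i, 0 < lam i)
    (a : Fin r → Fin (n+1) → ℝ) (y0 : Fin r → ℝ) (B : Finset (Fin (n+1))) (hB : Disjoint B S)
    (p : MvPolynomial (Fin r) ℂ) :
    Φ φ S lam a y0 ((∏ i ∈ B, (C ((lam i : ℝ) : ℂ) + Lf (fun j => a j i))) * p) =
      Φ φ (B ∪ S) lam a y0 p := by
  induction B using Finset.induction_on generalizing p with
  | empty => simp
  | insert i B hi ih =>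
    rw [Finset.disjoint_insert_left] at hB
    rw [Finset.prod_insert hi]
    have h1 : (C ((lam i : ℝ) : ℂ) + Lf (fun j => a j i)) *
        (∏ i ∈ B, (C ((lam i : ℝ) : ℂ) + Lf (fun j => a j i))) * p =
        (∏ i ∈ B, (C ((lam i : ℝ) : ℂ) + Lf (fun j => a j i))) *
        ((C ((lam i : ℝ) : ℂ) + Lf (fun j => a j i)) * p) := by ring
    rw [h1, ih hB.2, Φ_step h _ lam hl a y0 i (by simp [hi, hB.1]), Finset.insert_union]

end Pool.Agent.H628R4.TZ
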