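import Pool.Agent.H628R4.TZ.Defs
import Pool.Agent.H628R4.TZ.Step

set_option autoImplicit false

namespace Pool.Agent.H628R4.TZ

open MeasureTheory Set Filter Topology

variable {r N : ℕ} {v : Fin r → Fin N → ℕ}

noncomputable def mR (v : Fin r → Fin N → ℕ) (x : Fin N → ℝ) : ℝ := ⨅ j, ∑ l, (v j l : ℝ) * x l

lemma ord_eq [NeZero r] (ρ : Fin N → ℕ) (j : Fin r)
    (h : ∀ j', ∑ l, ρ l * v j l ≤ ∑ l, ρ l * v j' l) :
    ordAlong v ρ = ∑ l, ρ l * v j l := by
  unfold ordAlong
  exact le_antisymm (ciInf_le (Set.finite_range _).bddBelow j) (le_ciInf h)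

lemma mR_eq [NeZero r] (x : Fin N → ℝ) (j : Fin r)
    (h : ∀ j', ∑ l, (v j l : ℝ) * x l ≤ ∑ l, (v j' l : ℝ) * x l) :
    mR v x = ∑ l, (v j l : ℝ) * x l := by
  unfold mR
  exact le_antisymm (ciInf_le (Set.finite_range _).bddBelow j) (le_ciInf h)

lemma mR_lin [NeZero r] (R : ToricResolution v) (k : Fin R.n) (y : Fin N → ℝ)
    (hy : ∀ i, 0 ≤ y i) :
    mR v (fun l => ∑ i, y i * R.ray k i l) = ∑ i, y i * ordAlong v (R.ray k i) := by
  obtain ⟨j, hj⟩ := R.principal k
  have h1 : ∀ j', ∑ l, (v j' l : ℝ) * (∑ i, y i * R.ray k i l) =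
      ∑ i, y i * ((∑ l, R.ray k i l * v j' l : ℕ) : ℝ) := by
    intro j'
    simp only [Finset.mul_sum, Nat.cast_sum, Nat.cast_mul]
    rw [Finset.sum_comm]
    exact Finset.sum_congr rfl fun i _ => Finset.sum_congr rfl fun l _ => by ring
  rw [mR_eq _ j, h1]
  · exact Finset.sum_congr rfl fun i _ => by rw [ord_eq _ j (fun j' => hj j' i)]
  · intro j'
    rw [h1, h1]
    exact Finset.sum_le_sum fun i _ => mul_le_mul_of_nonneg_left
      (by exact_mod_cast hj j' i) (hy i)

/-- the linear map of a cone -/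
noncomputable def coneMap (R : ToricResolution v) (k : Fin R.n) : (Fin N → ℝ) →ₗ[ℝ] (Fin N → ℝ) :=
  Matrix.toLin' (Matrix.of fun l i => (R.ray k i l : ℝ))

lemma coneMap_apply (R : ToricResolution v) (k : Fin R.n) (y : Fin N → ℝ) (l : Fin N) :
    coneMap R k y l = ∑ i, y i * R.ray k i l := by
  simp only [coneMap, Matrix.toLin'_apply, Matrix.mulVec, dotProduct, Matrix.of_apply]
  exact Finset.sum_congr rfl fun i _ => mul_comm _ _

lemma coneMap_det (R : ToricResolution v) (k : Fin R.n) : |LinearMap.det (coneMap R k)| = 1 := by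
  have h1 : LinearMap.det (coneMap R k) =
      ((Matrix.det (Matrix.of fun i l => (R.ray k i l : ℤ)) : ℤ) : ℝ) := by
    rw [coneMap, LinearMap.det_toLin', ← Matrix.det_transpose]
    rw [show ((Matrix.det (Matrix.of fun i l => (R.ray k i l : ℤ)) : ℤ) : ℝ) =
      (Int.castRingHom ℝ) (Matrix.det (Matrix.of fun i l => (R.ray k i l : ℤ))) from rfl,
      RingHom.map_det]
    congr 1
  rw [h1, ← Int.cast_abs, Int.isUnit_iff_abs_eq.1 (R.unimodular k)]
  simp

lemma coneMap_inj (R : ToricResolution v) (k : Fin R.n) : Function.Injective (coneMap R k) := by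
  have h : LinearMap.det (coneMap R k) ≠ 0 := by
    intro h
    have := coneMap_det R k
    rw [h] at this
    simp at this
  exact (LinearMap.equivOfDetNeZero (coneMap R k) h).injective

def orth (N : ℕ) : Set (Fin N → ℝ) := Set.univ.pi fun _ => Ioi 0

lemma mem_orth {x : Fin N → ℝ} : x ∈ orth N ↔ ∀ i, 0 < x i := by simp [orth]

lemma orth_meas : MeasurableSet (orth N) := MeasurableSet.univ_pi fun _ => measurableSet_Ioi

lemma pi_ms : Measure.pi (ms (∅ : Finset (Fin N))) = volume.restrict (orth N) := by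
  rw [volume_pi, orth, Measure.restrict_pi_pi]
  congr 1

lemma setIntegral_orth (F : (Fin N → ℝ) → ℂ) :
    ∫ x, F x ∂(Measure.pi (ms (∅ : Finset (Fin N)))) = ∫ x in orth N, F x := by
  rw [pi_ms]

lemma exp_int (lam : ℝ) (hl : 0 < lam) :
    ∫ t in Ioi (0:ℝ), ((Real.exp (-lam * t) : ℝ) : ℂ) = (lam : ℂ)⁻¹ := by
  have h := one_dim (fun _ => 1) (fun _ => 0) lam hl (fun t => hasDerivAt_const t 1) 1 0
    (by simp) (by simp) continuous_const
  simp only [mul_one, sub_zero] at h
  rw [integral_mul_const] at h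
  exact eq_inv_of_mul_eq_one_left h

lemma prod_int (lam : Fin N → ℝ) (hl : ∀ i, 0 < lam i) :
    ∫ x in orth N, ∏ i, ((Real.exp (-lam i * x i) : ℝ) : ℂ) = ∏ i, (lam i : ℂ)⁻¹ := by
  rw [← setIntegral_orth]
  rw [integral_fintype_prod_eq_prod (fun i t => ((Real.exp (-lam i * t) : ℝ) : ℂ))]
  refine Finset.prod_congr rfl fun i _ => ?_
  simp only [ms, Finset.notMem_empty, if_false]
  exact exp_int (lam i) (hl i)

lemma ray_pos (R : ToricResolution v) (k : Fin R.n) (i : Fin N) : 0 < ∑ l, R.ray k i l := by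
  by_contra h
  have h1 : ∀ l, R.ray k i l = 0 := by
    have h2 : ∑ l, R.ray k i l = 0 := by omega
    intro l
    exact (Finset.sum_eq_zero_iff.1 h2) l (Finset.mem_univ _)
  have h3 := R.unimodular k
  rw [Matrix.det_eq_zero_of_row_eq_zero i (by intro l; simp [h1 l])] at h3
  simp at h3

noncomputable def kap (R : ToricResolution v) (s : ℝ) (k : Fin R.n) (i : Fin N) : ℝ :=
  (ordAlong v (R.ray k i) : ℝ) * s + (∑ l, R.ray k i l : ℕ)

lemma kap_pos (R : ToricResolution v) (s : ℝ) (hs : 0 < s) (k : Fin R.n) (i : Fin N) :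
    0 < kap R s k i := by
  unfold kap
  have h1 : (0:ℝ) < (∑ l, R.ray k i l : ℕ) := by exact_mod_cast ray_pos R k i
  have h2 : (0:ℝ) ≤ ordAlong v (R.ray k i) := Nat.cast_nonneg _
  positivity

lemma cone_int [NeZero r] (R : ToricResolution v) (s : ℝ) (hs : 0 < s) (k : Fin R.n) :
    ∫ x in (coneMap R k) '' (orth N), ((Real.exp (-(∑ l, x l) - s * mR v x) : ℝ) : ℂ) =
      ∏ i, (kap R s k i : ℂ)⁻¹ := by
  have h := integral_image_eq_integral_abs_det_fderiv_smul volume (orth_meas (N := N))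
    (f := coneMap R k) (f' := fun _ => LinearMap.toContinuousLinearMap (coneMap R k))
    (fun x _ => (LinearMap.toContinuousLinearMap (coneMap R k)).hasFDerivAt.hasFDerivWithinAt)
    (coneMap_inj R k).injOn (fun x => ((Real.exp (-(∑ l, x l) - s * mR v x) : ℝ) : ℂ))
  rw [h, ← prod_int _ (kap_pos R s hs k)]
  refine setIntegral_congr_fun orth_meas fun y hy => ?_
  have hy0 : ∀ i, 0 ≤ y i := fun i => (mem_orth.1 hy i).le
  have hdet : |(LinearMap.toContinuousLinearMap (coneMap R k)).det| = 1 := by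
    rw [LinearMap.det_toContinuousLinearMap]
    exact coneMap_det R k
  rw [hdet, one_smul]
  have h2 : coneMap R k y = fun l => ∑ i, y i * R.ray k i l := by
    funext l; exact coneMap_apply R k y l
  rw [h2, mR_lin R k y hy0, ← Complex.ofReal_prod, ← Real.exp_sum]
  congr 2
  have h3 : ∑ l, ∑ i, y i * (R.ray k i l : ℝ) = ∑ i, y i * ((∑ l, R.ray k i l : ℕ) : ℝ) := by
    rw [Finset.sum_comm]
    exact Finset.sum_congr rfl fun i _ => by rw [Nat.cast_sum, Finset.mul_sum]
  rw [h3, Finset.mul_sum, ← Finset.sum_neg_distrib, ← Finset.sum_sub_distrib]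
  exact Finset.sum_congr rfl fun i _ => by unfold kap; ring

lemma union_ae (R : ToricResolution v) :
    (⋃ k, (coneMap R k) '' (orth N)) =ᵐ[volume] orth N := by
  have h1 : orth N =ᵐ[volume] Ici 0 := by
    rw [volume_pi]
    exact Measure.univ_pi_Ioi_ae_eq_Ici
  refine EventuallyEq.trans ?_ h1.symm
  have h2 : ∀ᵐ x : Fin N → ℝ, ∀ k : Fin R.n, ∀ i : Fin N,
      x ∉ (coneMap R k) '' {y | y i = 0} := by
    rw [ae_all_iff]
    intro k
    rw [ae_all_iff]
    intro i
    refine measure_eq_zero_iff_ae_notMem.1 ?_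
    rw [Measure.addHaar_image_linearMap, volume_pi, Measure.pi_hyperplane, mul_zero]
  filter_upwards [h2] with x hx
  refine propext ⟨fun h => ?_, fun h => ?_⟩
  · obtain ⟨k, y, hy, rfl⟩ := mem_iUnion.1 h
    show (0 : Fin N → ℝ) ≤ coneMap R k y
    intro l
    rw [coneMap_apply]
    exact Finset.sum_nonneg fun i _ => mul_nonneg (mem_orth.1 hy i).le (Nat.cast_nonneg _)
  · obtain ⟨k, y, hy, hxy⟩ := R.cover x (fun l => h l)
    have hxy' : x = coneMap R k y := by
      funext l; rw [coneMap_apply]; exact hxy l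
    refine mem_iUnion.2 ⟨k, y, mem_orth.2 fun i => ?_, hxy'.symm⟩
    refine lt_of_le_of_ne (hy i) fun h0 => hx k i ⟨y, h0.symm, hxy'.symm⟩

lemma toric_integrable [NeZero r] (v : Fin r → Fin N → ℕ) (s : ℝ) (hs : 0 < s) :
    IntegrableOn (fun x => ((Real.exp (-(∑ l, x l) - s * mR v x) : ℝ) : ℂ)) (orth N) := by
  have hmR : Continuous (mR v) := by
    have h1 : mR v = fun x => Finset.univ.inf' Finset.univ_nonempty
        (fun j => ∑ l, (v j l : ℝ) * x l) := by
      funext x
      exact (Finset.inf'_univ_eq_ciInf _).symm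
    rw [h1]
    exact Continuous.finset_inf'_apply _ fun j _ => by fun_prop
  have h1 := wt_integrable (∅ : Finset (Fin N)) (fun _ => 1) (fun _ => one_pos)
  rw [pi_ms] at h1
  refine Integrable.mono h1 ?_ ?_
  · exact (Complex.continuous_ofReal.comp (Real.continuous_exp.comp
      (by fun_prop))).aestronglyMeasurable
  · filter_upwards [ae_restrict_mem orth_meas] with x hx
    rw [Complex.norm_real, wt, ← Complex.ofReal_prod, Complex.norm_real, ← Real.exp_sum,
      Real.norm_of_nonneg (Real.exp_pos _).le, Real.norm_of_nonneg (Real.exp_pos _).le,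
      Real.exp_le_exp]
    have h2 : 0 ≤ mR v x := le_ciInf fun j => Finset.sum_nonneg fun l _ =>
      mul_nonneg (Nat.cast_nonneg _) (mem_orth.1 hx l).le
    simp only [neg_mul, one_mul, Finset.sum_neg_distrib]
    nlinarith

lemma toric_int [NeZero r] (R : ToricResolution v) (s : ℝ) (hs : 0 < s) :
    ∫ x in orth N, ((Real.exp (-(∑ l, x l) - s * mR v x) : ℝ) : ℂ) =
      ∑ k, ∏ i, (kap R s k i : ℂ)⁻¹ := by
  have hint := toric_integrable v s hs
  rw [← setIntegral_congr_set (union_ae R), integral_iUnion_fintype]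
  · exact Finset.sum_congr rfl fun k _ => cone_int R s hs k
  · intro k
    exact orth_meas.image_of_continuousOn_injOn
      (LinearMap.continuous_of_finiteDimensional _).continuousOn (coneMap_inj R k).injOn
  · intro k k' hk
    refine Set.disjoint_left.2 ?_
    rintro x ⟨y, hy, rfl⟩ ⟨y', hy', h⟩
    obtain ⟨l, hl⟩ := R.disjoint k k' hk y y' (mem_orth.1 hy) (mem_orth.1 hy')
    apply hl
    rw [← coneMap_apply, ← coneMap_apply, h]
  · intro k
    exact (hint.congr_set_ae (union_ae R)).mono_set 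
      (subset_iUnion (fun k => (coneMap R k) '' (orth N)) k)

end Pool.Agent.H628R4.TZ
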