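import Pool.Agent.H628R4.TZ.Ideal
import Pool.Agent.H628R4.TZ.Toric

set_option autoImplicit false

namespace Pool.Agent.H628R4.TZ

open MeasureTheory Set Filter Topology

variable {r N : ℕ} {v : Fin r → Fin N → ℕ}

lemma lt_mR [NeZero r] (x : Fin N → ℝ) (t : ℝ) :
    t < mR v x ↔ ∀ j, t < ∑ l, (v j l : ℝ) * x l := by
  constructor
  · intro h j
    exact lt_of_lt_of_le h (ciInf_le (Set.finite_range _).bddBelow j)
  · intro h
    obtain ⟨j, hj⟩ := exists_eq_ciInf_of_finite (f := fun j => ∑ l, (v j l : ℝ) * x l)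
    unfold mR
    rw [← hj]
    exact h j

lemma inner_int (s m : ℝ) (hs : 0 < s) (hm : 0 ≤ m) :
    ∫ t in Ioi (0:ℝ), ((Real.exp (-s * t) : ℝ) : ℂ) * (if t < m then 1 else 0) =
      (((1 - Real.exp (-s * m)) / s : ℝ) : ℂ) := by
  have h1 : (fun t : ℝ => ((Real.exp (-s * t) : ℝ) : ℂ) * (if t < m then 1 else 0)) =
      (Iio m).indicator (fun t => ((Real.exp (-s * t) : ℝ) : ℂ)) := by
    funext t
    by_cases h : t < m <;> simp [h]
  rw [h1, setIntegral_indicator measurableSet_Iio, Ioi_inter_Iio, ← integral_Ioc_eq_integral_Ioo,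
    ← intervalIntegral.integral_of_le hm, intervalIntegral.integral_ofReal]
  congr 1
  rw [intervalIntegral.integral_comp_mul_left _ (by linarith : -s ≠ 0), integral_exp]
  simp only [mul_zero, Real.exp_zero, smul_eq_mul]
  field_simp
  ring

lemma mR_nonneg [NeZero r] (x : Fin N → ℝ) (hx : ∀ i, 0 ≤ x i) : 0 ≤ mR v x :=
  le_ciInf fun j => Finset.sum_nonneg fun l _ => mul_nonneg (Nat.cast_nonneg _) (hx l)

lemma F_eq [NeZero r] (R : ToricResolution v) (s : ℝ) (hs : 0 < s) :
    (∫ x, wt (lm (N := N) s) x * (∏ j, if 0 < ∑ i, (v j i : ℝ) * x i.succ - x 0 then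
        (1:ℂ) else 0) ∂(Measure.pi (ms ∅))) * s = 1 - ∑ k, ∏ i, (kap R s k i : ℂ)⁻¹ := by
  have hmeas : Measurable (fun x : Fin (N+1) → ℝ =>
      (∏ j, if 0 < ∑ i, (v j i : ℝ) * x i.succ - x 0 then (1:ℂ) else 0)) := by
    refine Finset.measurable_prod _ fun j _ => ?_
    refine Measurable.ite ?_ measurable_const measurable_const
    exact measurableSet_lt measurable_const (by fun_prop)
  have hint : Integrable (fun x => wt (lm (N := N) s) x *
      (∏ j, if 0 < ∑ i, (v j i : ℝ) * x i.succ - x 0 then (1:ℂ) else 0))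
      (Measure.pi (ms ∅)) := by
    refine (wt_integrable ∅ _ (lm_pos s hs)).mul_bdd (c := 1) hmeas.aestronglyMeasurable
      (Eventually.of_forall fun x => ?_)
    rw [norm_prod]
    refine Finset.prod_le_one (fun _ _ => norm_nonneg _) fun j _ => ?_
    split_ifs <;> simp
  rw [pi_split _ 0 _ hint]
  have hms : (fun j : Fin N => ms (∅ : Finset (Fin (N+1))) ((0 : Fin (N+1)).succAbove j)) =
      ms (∅ : Finset (Fin N)) := by
    funext j; simp [ms]
  have hms0 : ms (∅ : Finset (Fin (N+1))) 0 = volume.restrict (Ioi 0) := by simp [ms]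
  rw [hms, hms0, setIntegral_orth]
  have h1 : ∀ x ∈ orth N, ∫ t in Ioi (0:ℝ),
      wt (lm (N := N) s) ((0 : Fin (N+1)).insertNth (α := fun _ => ℝ) t x) *
      (∏ j, if 0 < ∑ i : Fin N, (v j i : ℝ) *
        ((0 : Fin (N+1)).insertNth (α := fun _ => ℝ) t x) i.succ -
        ((0 : Fin (N+1)).insertNth (α := fun _ => ℝ) t x) 0 then (1:ℂ) else 0) =
      (wt (fun _ => 1) x - ((Real.exp (-(∑ l, x l) - s * mR v x) : ℝ) : ℂ)) / s := by
    intro x hx
    have h2 : ∀ t : ℝ, wt (lm (N := N) s) ((0 : Fin (N+1)).insertNth (α := fun _ => ℝ) t x) *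
      (∏ j, if 0 < ∑ i : Fin N, (v j i : ℝ) *
        ((0 : Fin (N+1)).insertNth (α := fun _ => ℝ) t x) i.succ -
        ((0 : Fin (N+1)).insertNth (α := fun _ => ℝ) t x) 0 then (1:ℂ) else 0) =
        wt (fun _ => 1) x * (((Real.exp (-s * t) : ℝ) : ℂ) *
          (if t < mR v x then 1 else 0)) := by
      intro t
      have h3 : wt (lm (N := N) s) ((0 : Fin (N+1)).insertNth (α := fun _ => ℝ) t x) =
          ((Real.exp (-s * t) : ℝ) : ℂ) * wt (fun _ => 1) x := by
        unfold wt
        rw [Fin.prod_univ_succ]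
        simp [lm, Fin.insertNth_zero']
      have h4 : (∏ j, if 0 < ∑ i : Fin N, (v j i : ℝ) *
          ((0 : Fin (N+1)).insertNth (α := fun _ => ℝ) t x) i.succ -
          ((0 : Fin (N+1)).insertNth (α := fun _ => ℝ) t x) 0 then (1:ℂ) else 0) =
          if t < mR v x then 1 else 0 := by
        have h5 : ∀ j, (0 < ∑ i : Fin N, (v j i : ℝ) *
          ((0 : Fin (N+1)).insertNth (α := fun _ => ℝ) t x) i.succ -
          ((0 : Fin (N+1)).insertNth (α := fun _ => ℝ) t x) 0) ↔
            t < ∑ l, (v j l : ℝ) * x l := by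
          intro j
          simp [Fin.insertNth_zero']
        simp only [h5]
        rw [Finset.prod_ite_zero]
        simp [lt_mR]
      rw [h3, h4]
      ring
    simp only [h2]
    rw [integral_const_mul, inner_int s _ hs (mR_nonneg x fun i => (mem_orth.1 hx i).le)]
    have h6 : wt (fun _ => 1) x = ((Real.exp (-(∑ l, x l)) : ℝ) : ℂ) := by
      unfold wt
      rw [← Complex.ofReal_prod, ← Real.exp_sum]
      simp
    rw [h6]
    have h7 : Real.exp (-(∑ l, x l) - s * mR v x) =
        Real.exp (-(∑ l, x l)) * Real.exp (-s * mR v x) := by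
      rw [← Real.exp_add]
      congr 1
      ring
    rw [h7]
    push_cast
    ring
  rw [setIntegral_congr_fun orth_meas h1, integral_div, integral_sub, toric_int R s hs]
  · have h8 : ∫ x in orth N, wt (fun _ => 1) x = 1 := by
      have := prod_int (N := N) (fun _ => 1) (fun _ => one_pos)
      simpa [wt] using this
    rw [h8]
    have : (s : ℂ) ≠ 0 := by exact_mod_cast hs.ne'
    field_simp
  · have h1 := wt_integrable (∅ : Finset (Fin N)) (fun _ => 1) (fun _ => one_pos)
    rwa [pi_ms] at h1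
  · exact toric_integrable v s hs

open Polynomial in
lemma den_num {K : Type*} [Field K] (f : ℂ[X] →+* K) {n : ℕ} (d : Fin n → Fin N → ℂ[X])
    (hd : ∀ k i, f (d k i) ≠ 0) :
    f (∏ k, ∏ i, d k i) * ∑ k, ∏ i, (f (d k i))⁻¹ =
      f (∑ k, ∏ k' ∈ Finset.univ.erase k, ∏ i, d k' i) := by
  rw [Finset.mul_sum, map_sum]
  refine Finset.sum_congr rfl fun k _ => ?_
  rw [← Finset.mul_prod_erase Finset.univ _ (Finset.mem_univ k), map_mul, map_prod]
  have h1 : (∏ i, f (d k i)) * ∏ i, (f (d k i))⁻¹ = 1 := by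
    rw [← Finset.prod_mul_distrib]
    exact Finset.prod_eq_one fun i _ => mul_inv_cancel₀ (hd k i)
  rw [mul_right_comm, h1, one_mul]

open Polynomial in
/-- The Bernstein-Sato polynomial of a monomial ideal times its topological zeta function is a
polynomial. -/
theorem main [NeZero r] (R : ToricResolution v) (b : ℂ[X]) (hb : IsFunctionalEq (mons v) b) :
    ∃ P : ℂ[X], algebraMap ℂ[X] (RatFunc ℂ) b * topZeta R = algebraMap ℂ[X] (RatFunc ℂ) P := by
  obtain ⟨Q, hQ⟩ := main_poly v b (rel_of_functionalEq v b hb)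
  set d : Fin R.n → Fin N → ℂ[X] := fun k i =>
    C ((ordAlong v (R.ray k i) : ℕ) : ℂ) * X + C ((∑ l, R.ray k i l : ℕ) : ℂ) with hd
  set Den : ℂ[X] := ∏ k, ∏ i, d k i with hDen
  set Num : ℂ[X] := ∑ k, ∏ k' ∈ Finset.univ.erase k, ∏ i, d k' i with hNum
  have hd0 : ∀ k i, d k i ≠ 0 := by
    intro k i h
    have := congrArg (fun p => p.coeff 0) h
    simp only [hd, coeff_add, mul_coeff_zero, coeff_X_zero, mul_zero, coeff_C_zero, zero_add,
      coeff_zero] at this
    have h2 := ray_pos R k i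
    have h3 : ((∑ l, R.ray k i l : ℕ) : ℂ) ≠ 0 := by exact_mod_cast h2.ne'
    exact h3 this
  have hDen0 : Den ≠ 0 := Finset.prod_ne_zero_iff.2 fun k _ =>
    Finset.prod_ne_zero_iff.2 fun i _ => hd0 k i
  have hZ : algebraMap ℂ[X] (RatFunc ℂ) Den * topZeta R = algebraMap ℂ[X] (RatFunc ℂ) Num := by
    have := den_num (algebraMap ℂ[X] (RatFunc ℂ)) d (fun k i => by
      rw [Ne, FaithfulSMul.algebraMap_eq_zero_iff]; exact hd0 k i)
    rw [← hDen, ← hNum] at this
    rw [← this]
    congr 1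
    unfold topZeta
    refine Finset.sum_congr rfl fun k _ => Finset.prod_congr rfl fun i _ => ?_
    congr 1
    simp [hd, RatFunc.algebraMap_X]
  have hkey : b * (Den - Num) = X * Q * Den := by
    refine Polynomial.eq_of_infinite_eval_eq _ _ ?_
    refine ((Set.Ioi_infinite (0:ℝ)).image Complex.ofReal_injective.injOn).mono ?_
    rintro _ ⟨s, hs, rfl⟩
    have hs' : 0 < s := hs
    have h1 := hQ s hs'
    have h2 := F_eq R s hs'
    have h3 : ∀ k i, (evalRingHom (s:ℂ)) (d k i) = (kap R s k i : ℂ) := by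
      intro k i
      simp only [hd, kap, coe_evalRingHom, eval_add, eval_mul, eval_C, eval_X]
      push_cast
      ring
    have h4 := den_num (evalRingHom (s:ℂ)) d (fun k i => by
      rw [h3]; exact_mod_cast (kap_pos R s hs' k i).ne')
    simp only [h3] at h4
    rw [← hDen, ← hNum, coe_evalRingHom] at h4
    show eval (s:ℂ) (b * (Den - Num)) = eval (s:ℂ) (X * Q * Den)
    rw [eval_mul, eval_sub, eval_mul, eval_mul, eval_X, ← h1, ← h4]
    linear_combination (-(eval (s:ℂ) b * eval (s:ℂ) Den)) * h2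
  refine ⟨b - X * Q, ?_⟩
  have hA : algebraMap ℂ[X] (RatFunc ℂ) Den ≠ 0 := by
    rw [Ne, FaithfulSMul.algebraMap_eq_zero_iff]; exact hDen0
  refine mul_left_cancel₀ hA ?_
  rw [mul_left_comm, hZ, ← map_mul, ← map_mul]
  congr 1
  linear_combination -hkey

end Pool.Agent.H628R4.TZ
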