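import Mathlib

set_option autoImplicit false

/-! Functionals on polynomials given by integrals over orthants. -/

namespace Pool.Agent.H628R4.TZ

open MeasureTheory MvPolynomial Set

/-- A sequence of bounded functions, each being minus the derivative of the previous one. -/
structure DSeq (φ : ℕ → ℝ → ℝ) : Prop where
  deriv : ∀ k t, HasDerivAt (φ k) (-(φ (k+1) t)) t
  bdd : ∀ k, ∃ C, ∀ t, |φ k t| ≤ C

variable {r : ℕ}

noncomputable def W (φ : ℕ → ℝ → ℝ) (k : Fin r →₀ ℕ) (y : Fin r → ℝ) : ℝ := ∏ j, φ (k j) (y j)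

noncomputable def D (φ : ℕ → ℝ → ℝ) (y : Fin r → ℝ) : MvPolynomial (Fin r) ℂ →ₗ[ℂ] ℂ :=
  (basisMonomials (Fin r) ℂ).constr ℂ (fun k => ((W φ k y : ℝ) : ℂ))

lemma D_monomial (φ : ℕ → ℝ → ℝ) (y : Fin r → ℝ) (k : Fin r →₀ ℕ) (a : ℂ) :
    D φ y (monomial k a) = a * (W φ k y : ℝ) := by
  have h : (monomial k a : MvPolynomial (Fin r) ℂ) = a • (basisMonomials (Fin r) ℂ k) := by
    simp [coe_basisMonomials, smul_monomial]
  rw [h, map_smul, D, Module.Basis.constr_basis, smul_eq_mul]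

variable {φ : ℕ → ℝ → ℝ}

lemma DSeq.cont (h : DSeq φ) (k : ℕ) : Continuous (φ k) :=
  continuous_iff_continuousAt.2 fun t => (h.deriv k t).continuousAt

lemma W_cont (h : DSeq φ) (k : Fin r →₀ ℕ) : Continuous (W φ k) := by
  unfold W
  exact continuous_finsetProd _ fun j _ => (h.cont _).comp (continuous_apply j)

lemma D_cont (h : DSeq φ) (p : MvPolynomial (Fin r) ℂ) : Continuous (fun y => D φ y p) := by
  induction p using MvPolynomial.induction_on' with
  | monomial u a =>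
    simp only [D_monomial]
    exact continuous_const.mul (Complex.continuous_ofReal.comp (W_cont h u))
  | add p q hp hq => simp only [map_add]; exact hp.add hq

lemma W_bdd (h : DSeq φ) (k : Fin r →₀ ℕ) : ∃ C, ∀ y, |W φ k y| ≤ C := by
  choose C hC using fun j => h.bdd (k j)
  refine ⟨∏ j, C j, fun y => ?_⟩
  unfold W
  rw [Finset.abs_prod]
  exact Finset.prod_le_prod (fun _ _ => abs_nonneg _) fun j _ => hC j _

lemma D_bdd (h : DSeq φ) (p : MvPolynomial (Fin r) ℂ) : ∃ C, ∀ y, ‖D φ y p‖ ≤ C := by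
  induction p using MvPolynomial.induction_on' with
  | monomial u a =>
    obtain ⟨C, hC⟩ := W_bdd h u
    refine ⟨‖a‖ * C, fun y => ?_⟩
    rw [D_monomial, norm_mul, Complex.norm_real]
    exact mul_le_mul_of_nonneg_left (hC y) (norm_nonneg _)
  | add p q hp hq =>
    obtain ⟨C, hC⟩ := hp
    obtain ⟨C', hC'⟩ := hq
    refine ⟨C + C', fun y => ?_⟩
    rw [map_add]
    exact (norm_add_le _ _).trans (add_le_add (hC y) (hC' y))

/-- the linear form with the given coefficients -/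
noncomputable def Lf (a : Fin r → ℝ) : MvPolynomial (Fin r) ℂ := ∑ j, C ((a j : ℝ) : ℂ) * X j

lemma D_hasDerivAt (h : DSeq φ) (p : MvPolynomial (Fin r) ℂ) (a : Fin r → ℝ)
    (y : ℝ → Fin r → ℝ) (t : ℝ) (hy : ∀ j, HasDerivAt (fun t => y t j) (a j) t) :
    HasDerivAt (fun t => D φ (y t) p) (-(D φ (y t) (Lf a * p))) t := by
  induction p using MvPolynomial.induction_on' with
  | monomial u c =>
    have h1 : HasDerivAt (fun t => W φ u (y t))
        (∑ j, (∏ i ∈ Finset.univ.erase j, φ (u i) (y t i)) • (-(φ (u j + 1) (y t j)) * a j)) t := by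
      unfold W
      exact HasDerivAt.fun_finsetProd fun j _ => (h.deriv (u j) (y t j)).comp t (hy j)
    have h2 := (h1.ofReal_comp).const_mul c
    simp only [D_monomial]
    refine h2.congr_deriv ?_
    have h3 : Lf a * monomial u c = ∑ j, monomial (u + Finsupp.single j 1) (c * (a j : ℝ)) := by
      unfold Lf
      rw [Finset.sum_mul]
      refine Finset.sum_congr rfl fun j _ => ?_
      rw [C_mul_X_eq_monomial, monomial_mul]
      congr 1
      · rw [add_comm]
      · ring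
    rw [h3, map_sum, ← Finset.sum_neg_distrib]
    push_cast
    rw [Finset.mul_sum]
    refine Finset.sum_congr rfl fun j _ => ?_
    rw [D_monomial]
    have h4 : W φ (u + Finsupp.single j 1) (y t) =
        (∏ i ∈ Finset.univ.erase j, φ (u i) (y t i)) * φ (u j + 1) (y t j) := by
      unfold W
      rw [← Finset.mul_prod_erase _ _ (Finset.mem_univ j), mul_comm]
      congr 1
      · refine Finset.prod_congr rfl fun i hi => ?_
        rw [Finsupp.add_apply, Finsupp.single_eq_of_ne (Finset.ne_of_mem_erase hi), add_zero]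
      · simp
    rw [h4]
    push_cast
    simp only [smul_eq_mul]
    push_cast
    ring
  | add p q hp hq =>
    simp only [map_add, mul_add]
    refine (hp.add hq).congr_deriv ?_
    ring

variable {M : ℕ}

/-- the affine map -/
def Y (a : Fin r → Fin M → ℝ) (y0 : Fin r → ℝ) (x : Fin M → ℝ) (j : Fin r) : ℝ :=
  ∑ i, a j i * x i + y0 j

open Classical in
noncomputable def ms (S : Finset (Fin M)) (i : Fin M) : Measure ℝ :=
  if i ∈ S then Measure.dirac 0 else volume.restrict (Ioi 0)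

instance (S : Finset (Fin M)) (i : Fin M) : SigmaFinite (ms S i) := by
  unfold ms
  split_ifs <;> infer_instance

noncomputable def wt (lam : Fin M → ℝ) (x : Fin M → ℝ) : ℂ :=
  ∏ i, ((Real.exp (-lam i * x i) : ℝ) : ℂ)

/-- the functional -/
noncomputable def Φ (φ : ℕ → ℝ → ℝ) (S : Finset (Fin M)) (lam : Fin M → ℝ)
    (a : Fin r → Fin M → ℝ) (y0 : Fin r → ℝ) (p : MvPolynomial (Fin r) ℂ) : ℂ :=
  ∫ x, wt lam x * D φ (Y a y0 x) p ∂(Measure.pi (ms S))

lemma wt_integrable (S : Finset (Fin M)) (lam : Fin M → ℝ) (hl : ∀ i, 0 < lam i) :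
    Integrable (wt lam) (Measure.pi (ms S)) := by
  unfold wt
  refine Integrable.fintype_prod (f := fun i t => ((Real.exp (-lam i * t) : ℝ) : ℂ)) fun i => ?_
  unfold ms
  split_ifs
  · exact integrable_dirac (by simp)
  · exact (exp_neg_integrableOn_Ioi 0 (hl i)).ofReal

lemma Y_cont (a : Fin r → Fin M → ℝ) (y0 : Fin r → ℝ) : Continuous (Y a y0) := by
  unfold Y
  fun_prop

lemma int_integrable (h : DSeq φ) (S : Finset (Fin M)) (lam : Fin M → ℝ) (hl : ∀ i, 0 < lam i)
    (a : Fin r → Fin M → ℝ) (y0 : Fin r → ℝ) (p : MvPolynomial (Fin r) ℂ) :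
    Integrable (fun x => wt lam x * D φ (Y a y0 x) p) (Measure.pi (ms S)) := by
  obtain ⟨C, hC⟩ := D_bdd h p
  exact (wt_integrable S lam hl).mul_bdd
    ((D_cont h p).comp (Y_cont a y0)).aestronglyMeasurable
    (Filter.Eventually.of_forall fun x => hC _)

lemma Φ_add (h : DSeq φ) (S : Finset (Fin M)) (lam : Fin M → ℝ) (hl : ∀ i, 0 < lam i)
    (a : Fin r → Fin M → ℝ) (y0 : Fin r → ℝ) (p q : MvPolynomial (Fin r) ℂ) :
    Φ φ S lam a y0 (p + q) = Φ φ S lam a y0 p + Φ φ S lam a y0 q := by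
  unfold Φ
  simp only [map_add, mul_add]
  exact integral_add (int_integrable h S lam hl a y0 p) (int_integrable h S lam hl a y0 q)

lemma Φ_sum (h : DSeq φ) (S : Finset (Fin M)) (lam : Fin M → ℝ) (hl : ∀ i, 0 < lam i)
    (a : Fin r → Fin M → ℝ) (y0 : Fin r → ℝ) {ι : Type*} (s : Finset ι)
    (p : ι → MvPolynomial (Fin r) ℂ) :
    Φ φ S lam a y0 (∑ i ∈ s, p i) = ∑ i ∈ s, Φ φ S lam a y0 (p i) := by
  unfold Φ
  simp only [map_sum, Finset.mul_sum]
  exact integral_finsetSum _ fun i _ => int_integrable h S lam hl a y0 (p i)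

lemma Φ_C_mul (S : Finset (Fin M)) (lam : Fin M → ℝ)
    (a : Fin r → Fin M → ℝ) (y0 : Fin r → ℝ) (c : ℂ) (p : MvPolynomial (Fin r) ℂ) :
    Φ φ S lam a y0 (C c * p) = c * Φ φ S lam a y0 p := by
  unfold Φ
  rw [← integral_const_mul]
  refine integral_congr_ae (Filter.Eventually.of_forall fun x => ?_)
  simp only
  rw [C_mul', map_smul, smul_eq_mul]
  ring

lemma ae_ms (S : Finset (Fin M)) :
    ∀ᵐ x ∂(Measure.pi (ms S)), (∀ i, 0 ≤ x i) ∧ ∀ i ∈ S, x i = 0 := by
  have h1 : ∀ i, ∀ᵐ t ∂(ms S i), 0 ≤ t ∧ (i ∈ S → t = 0) := by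
    intro i
    unfold ms
    split_ifs with hi
    · rw [ae_dirac_iff]
      · simp
      · exact (measurableSet_Ici.inter (by simp [hi]) : MeasurableSet (Ici (0:ℝ) ∩ {t | i ∈ S → t = 0}))
    · filter_upwards [ae_restrict_mem measurableSet_Ioi] with t ht
      exact ⟨le_of_lt ht, fun h => absurd h hi⟩
  have h2 : ∀ i, ∀ᵐ x ∂(Measure.pi (ms S)), 0 ≤ x i ∧ (i ∈ S → x i = 0) := fun i =>
    (Measure.quasiMeasurePreserving_eval (ms S) i).ae (h1 i)
  filter_upwards [ae_all_iff.2 h2] with x hx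
  exact ⟨fun i => (hx i).1, fun i hi => (hx i).2 hi⟩

lemma Φ_eq_zero (S : Finset (Fin M)) (lam : Fin M → ℝ)
    (a : Fin r → Fin M → ℝ) (y0 : Fin r → ℝ) (p : MvPolynomial (Fin r) ℂ)
    (hz : ∀ x : Fin M → ℝ, (∀ i, 0 ≤ x i) → (∀ i ∈ S, x i = 0) → D φ (Y a y0 x) p = 0) :
    Φ φ S lam a y0 p = 0 := by
  unfold Φ
  refine integral_eq_zero_of_ae ?_
  filter_upwards [ae_ms S] with x hx
  rw [hz x hx.1 hx.2, mul_zero]
  rfl

lemma pi_split {n : ℕ} (μ : Fin (n+1) → Measure ℝ) [∀ i, SigmaFinite (μ i)] (i : Fin (n+1))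
    (F : (Fin (n+1) → ℝ) → ℂ) (hF : Integrable F (Measure.pi μ)) :
    ∫ x, F x ∂(Measure.pi μ) =
      ∫ x', ∫ t, F (i.insertNth (α := fun _ => ℝ) t x') ∂(μ i)
        ∂(Measure.pi fun j => μ (i.succAbove j)) := by
  have h := (measurePreserving_piFinSuccAbove μ i).symm
  rw [← h.integral_comp' F]
  rw [integral_prod_symm]
  · rfl
  · exact (h.integrable_comp_emb (MeasurableEquiv.measurableEmbedding _)).2 hF

end Pool.Agent.H628R4.TZ
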