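import Pool.Agent.H628R4.TZ.Kern

set_option autoImplicit false

namespace Pool.Agent.H628R4.TZ

open MeasureTheory MvPolynomial Set Filter Topology

variable {r N : ℕ}

/-- The relation on `b` used in the analytic part. -/
def Rel (v : Fin r → Fin N → ℕ) (b : Polynomial ℂ) : Prop :=
  ∃ (Cs : Finset (Fin r → ℤ)) (q : (Fin r → ℤ) → MvPolynomial (Fin r) ℂ),
    (∀ c ∈ Cs, ∑ j, c j = 1) ∧
    Polynomial.aeval (∑ j, X j : MvPolynomial (Fin r) ℂ) b =
      ∑ c ∈ Cs, (∏ i ∈ Bc v c, el v i) * (monomial (mA c) 1 * q c)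

lemma Φ_b_zero (v : Fin r → Fin N → ℕ) (b : Polynomial ℂ) (hR : Rel v b) :
    ∃ K : ℝ, 0 ≤ K ∧ ∀ ε > 0, ∀ T, ε * K < T → ∀ s : ℝ, 0 < s →
      Φ (ph ε) ∅ (lm (N := N) s) (av v) (fun _ => -T)
        (Polynomial.aeval (∑ j, X j : MvPolynomial (Fin r) ℂ) b) = 0 := by
  obtain ⟨Cs, q, hc, hb⟩ := hR
  refine ⟨∑ c ∈ Cs, ∑ j, |(c j : ℝ)|, by positivity, fun ε hε T hT s hs => ?_⟩
  rw [hb, Φ_sum (ph_dseq ε hε) _ _ (lm_pos s hs)]
  refine Finset.sum_eq_zero fun c hcc => ?_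
  refine Φ_rel_zero v c (hc c hcc) ε T hε (lt_of_le_of_lt ?_ hT) s hs _
  refine mul_le_mul_of_nonneg_left ?_ hε.le
  exact Finset.single_le_sum (f := fun c : Fin r → ℤ => ∑ j, |(c j : ℝ)|)
    (fun c _ => by positivity) hcc

lemma Φ_indep (φ : ℕ → ℝ → ℝ) (s : ℝ) (a : Fin r → Fin (N+1) → ℝ) (y0 : Fin r → ℝ)
    (p : MvPolynomial (Fin r) ℂ) :
    Φ φ {0} (lm (N := N) s) a y0 p = Φ φ {0} (lm (N := N) 1) a y0 p := by
  unfold Φ
  refine integral_congr_ae ?_
  filter_upwards [ae_ms (M := N+1) {0}] with x hx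
  have h0 : x 0 = 0 := hx.2 0 (by simp)
  have : wt (lm (N := N) s) x = wt (lm (N := N) 1) x := by
    unfold wt
    rw [Fin.prod_univ_succ, Fin.prod_univ_succ, h0]
    simp [lm]
  simp only [this]

noncomputable def Pe (v : Fin r → Fin N → ℕ) (b : Polynomial ℂ) (ε T : ℝ) : Polynomial ℂ :=
  ∑ k ∈ Finset.range (b.natDegree + 1), ∑ i ∈ Finset.range k,
    Polynomial.monomial i (b.coeff k *
      Φ (ph ε) {0} (lm (N := N) 1) (av v) (fun _ => -T)
        ((∑ j, X j : MvPolynomial (Fin r) ℂ) ^ (k - 1 - i)))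

lemma Pe_natDegree (v : Fin r → Fin N → ℕ) (b : Polynomial ℂ) (ε T : ℝ) :
    (Pe v b ε T).natDegree ≤ b.natDegree := by
  unfold Pe
  refine Polynomial.natDegree_sum_le_of_forall_le _ _ fun k hk => ?_
  refine Polynomial.natDegree_sum_le_of_forall_le _ _ fun i hi => ?_
  refine (Polynomial.natDegree_monomial_le _).trans ?_
  simp only [Finset.mem_range] at hk hi
  omega

lemma Pe_eval (v : Fin r → Fin N → ℕ) (b : Polynomial ℂ) (ε T s : ℝ) (hε : 0 < ε) (hs : 0 < s)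
    (h0 : Φ (ph ε) ∅ (lm (N := N) s) (av v) (fun _ => -T)
        (Polynomial.aeval (∑ j, X j : MvPolynomial (Fin r) ℂ) b) = 0) :
    b.eval (s : ℂ) * Φ (ph ε) ∅ (lm (N := N) s) (av v) (fun _ => -T) 1 =
      (Pe v b ε T).eval (s : ℂ) := by
  set σ : MvPolynomial (Fin r) ℂ := ∑ j, X j with hσ
  set β : MvPolynomial (Fin r) ℂ := ∑ k ∈ Finset.range (b.natDegree + 1),
    C (b.coeff k) * ∑ i ∈ Finset.range k, (C (s:ℂ)) ^ i * σ ^ (k - 1 - i) with hβ
  have h1 : C (b.eval (s:ℂ)) * 1 = Polynomial.aeval σ b + (C (s:ℂ) - σ) * β := by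
    have h2 : (C (b.eval (s:ℂ)) : MvPolynomial (Fin r) ℂ) =
        ∑ k ∈ Finset.range (b.natDegree + 1), C (b.coeff k) * (C (s:ℂ)) ^ k := by
      rw [Polynomial.eval_eq_sum_range, map_sum]
      exact Finset.sum_congr rfl fun k _ => by rw [map_mul, map_pow]
    have h3 : Polynomial.aeval σ b = ∑ k ∈ Finset.range (b.natDegree + 1),
        C (b.coeff k) * σ ^ k := by
      rw [Polynomial.aeval_eq_sum_range]
      exact Finset.sum_congr rfl fun k _ => by rw [C_mul']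
    rw [mul_one, h2, h3, hβ, Finset.mul_sum, ← Finset.sum_add_distrib]
    refine Finset.sum_congr rfl fun k _ => ?_
    have h4 := geom_sum₂_mul (C (s:ℂ) : MvPolynomial (Fin r) ℂ) σ k
    linear_combination (-C (b.coeff k)) * h4
  have h5 : C (s:ℂ) - σ = C ((lm (N := N) s 0 : ℝ) : ℂ) + Lf (fun j => av v j 0) := by
    simp [lm, Lf, av, hσ, sub_eq_add_neg, Finset.sum_neg_distrib]
  rw [← Φ_C_mul, h1, Φ_add (ph_dseq ε hε) _ _ (lm_pos s hs), h0, zero_add, h5,
    Φ_step (ph_dseq ε hε) ∅ _ (lm_pos s hs) _ _ 0 (by simp)]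
  have h6 : (insert 0 ∅ : Finset (Fin (N+1))) = {0} := rfl
  rw [h6, Φ_indep, hβ, Φ_sum (ph_dseq ε hε) _ _ (lm_pos 1 one_pos)]
  unfold Pe
  rw [Polynomial.eval_finset_sum]
  refine Finset.sum_congr rfl fun k _ => ?_
  rw [Φ_C_mul, Φ_sum (ph_dseq ε hε) _ _ (lm_pos 1 one_pos), Polynomial.eval_finset_sum,
    Finset.mul_sum]
  refine Finset.sum_congr rfl fun i _ => ?_
  rw [← map_pow, Φ_C_mul, Polynomial.eval_monomial]
  ring

/-- a pointwise limit of polynomials of bounded degree is a polynomial -/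
lemma limit_poly (P : ℕ → Polynomial ℂ) (n : ℕ) (hP : ∀ m, (P m).natDegree ≤ n) (f : ℝ → ℂ)
    (hf : ∀ s : ℝ, 0 < s → Tendsto (fun m => (P m).eval (s:ℂ)) atTop (𝓝 (f s))) :
    ∃ Q : Polynomial ℂ, ∀ s : ℝ, 0 < s → f s = Q.eval (s:ℂ) := by
  set nd : ℕ → ℂ := fun i => ((i:ℝ) + 1 : ℝ) with hnd
  have hinj : Set.InjOn nd (Finset.range (n+1) : Finset ℕ) := by
    intro i _ j _ hij
    simp only [hnd, Complex.ofReal_inj, add_left_inj, Nat.cast_inj] at hij
    exact hij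
  refine ⟨Lagrange.interpolate (Finset.range (n+1)) nd (fun i => f ((i:ℝ)+1)), fun s hs => ?_⟩
  have h1 : ∀ m, P m = Lagrange.interpolate (Finset.range (n+1)) nd (fun i => (P m).eval (nd i)) := by
    intro m
    refine Lagrange.eq_interpolate hinj ?_
    rw [Finset.card_range]
    exact lt_of_le_of_lt Polynomial.degree_le_natDegree (by exact_mod_cast Nat.lt_succ_of_le (hP m))
  refine tendsto_nhds_unique (hf s hs) ?_
  have h2 : ∀ m, (P m).eval (s:ℂ) = ∑ i ∈ Finset.range (n+1),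
      (P m).eval (nd i) * (Lagrange.basis (Finset.range (n+1)) nd i).eval (s:ℂ) := by
    intro m
    conv_lhs => rw [h1 m]
    rw [Lagrange.interpolate_apply, Polynomial.eval_finset_sum]
    exact Finset.sum_congr rfl fun i _ => by simp
  simp only [h2]
  rw [Lagrange.interpolate_apply, Polynomial.eval_finset_sum]
  refine tendsto_finset_sum _ fun i _ => ?_
  rw [Polynomial.eval_mul, Polynomial.eval_C]
  exact (hf _ (by positivity)).mul_const _

lemma stp_lim (K : ℝ) (hK : 0 ≤ K) (u : ℝ) :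
    Tendsto (fun m : ℕ => stp (1 / ((m:ℝ)+1)) (u - (K + 1) / ((m:ℝ)+1))) atTop
      (𝓝 (if 0 < u then 1 else 0)) := by
  have h1 : ∀ m : ℕ, stp (1 / ((m:ℝ)+1)) (u - (K + 1) / ((m:ℝ)+1)) =
      Real.smoothTransition (u * ((m:ℝ)+1) - (K + 1)) := by
    intro m
    unfold stp
    congr 1
    field_simp
  simp only [h1]
  split_ifs with hu
  · refine tendsto_const_nhds.congr' ?_
    have h2 : Tendsto (fun m : ℕ => u * ((m:ℝ)+1)) atTop atTop :=
      (tendsto_atTop_add_const_right _ _ tendsto_natCast_atTop_atTop).const_mul_atTop hu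
    filter_upwards [h2.eventually_ge_atTop (K + 2)] with m hm
    rw [Real.smoothTransition.one_of_one_le]
    linarith
  · refine tendsto_const_nhds.congr' (Eventually.of_forall fun m => ?_)
    have : u * ((m:ℝ)+1) ≤ 0 := mul_nonpos_of_nonpos_of_nonneg (not_lt.1 hu) (by positivity)
    exact (Real.smoothTransition.zero_of_nonpos (by linarith)).symm

lemma D_one (φ : ℕ → ℝ → ℝ) (y : Fin r → ℝ) : D φ y 1 = ∏ j, ((φ 0 (y j) : ℝ) : ℂ) := by
  have : (1 : MvPolynomial (Fin r) ℂ) = monomial 0 1 := rfl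
  rw [this, D_monomial, W]
  simp

open Classical in
lemma Φ_lim (v : Fin r → Fin N → ℕ) (K : ℝ) (hK : 0 ≤ K) (s : ℝ) (hs : 0 < s) :
    Tendsto (fun m : ℕ => Φ (ph (1 / ((m:ℝ)+1))) ∅ (lm (N := N) s) (av v)
        (fun _ => -((K + 1) / ((m:ℝ)+1))) 1) atTop
      (𝓝 (∫ x, wt (lm (N := N) s) x * (∏ j, if 0 < ∑ i, (v j i : ℝ) * x i.succ - x 0 then
        (1:ℂ) else 0) ∂(Measure.pi (ms ∅)))) := by
  unfold Φ
  refine tendsto_integral_of_dominated_convergence (fun x => ‖wt (lm (N := N) s) x‖) ?_ ?_ ?_ ?_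
  · intro m
    exact (int_integrable (ph_dseq _ (by positivity)) ∅ _ (lm_pos s hs) _ _ _).aestronglyMeasurable
  · exact (wt_integrable ∅ _ (lm_pos s hs)).norm
  · intro m
    refine Eventually.of_forall fun x => ?_
    rw [norm_mul]
    refine mul_le_of_le_one_right (norm_nonneg _) ?_
    rw [D_one, norm_prod]
    refine Finset.prod_le_one (fun _ _ => norm_nonneg _) fun j _ => ?_
    rw [ph_zero, Complex.norm_real, Real.norm_eq_abs, stp,
      abs_of_nonneg (Real.smoothTransition.nonneg _)]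
    exact Real.smoothTransition.le_one _
  · refine Eventually.of_forall fun x => ?_
    refine Tendsto.const_mul _ ?_
    simp only [D_one]
    refine tendsto_finset_prod _ fun j _ => ?_
    simp only [Y_av, ph_zero]
    have h := stp_lim K hK (∑ i, (v j i : ℝ) * x i.succ - x 0)
    have h' := (Complex.continuous_ofReal.tendsto _).comp h
    refine (h'.congr fun m => rfl).trans ?_
    split_ifs <;> simp

/-- The limit relation. -/
theorem main_poly (v : Fin r → Fin N → ℕ) (b : Polynomial ℂ) (hR : Rel v b) :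
    ∃ Q : Polynomial ℂ, ∀ s : ℝ, 0 < s → b.eval (s:ℂ) *
      (∫ x, wt (lm (N := N) s) x * (∏ j, if 0 < ∑ i, (v j i : ℝ) * x i.succ - x 0 then
        (1:ℂ) else 0) ∂(Measure.pi (ms ∅))) = Q.eval (s:ℂ) := by
  obtain ⟨K, hK, h⟩ := Φ_b_zero v b hR
  refine limit_poly (fun m => Pe v b (1 / ((m:ℝ)+1)) ((K + 1) / ((m:ℝ)+1))) b.natDegree
    (fun m => Pe_natDegree _ _ _ _) _ fun s hs => ?_
  have h1 := (Φ_lim v K hK s hs).const_mul (b.eval (s:ℂ))
  refine h1.congr fun m => ?_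
  have hm : (0:ℝ) < 1 / ((m:ℝ)+1) := by positivity
  refine Pe_eval v b _ _ s hm hs (h _ hm _ ?_ s hs)
  rw [one_div_mul_eq_div]
  exact div_lt_div_of_pos_right (by linarith) (by positivity)

end Pool.Agent.H628R4.TZ
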