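import Pool.Agent.H628R4.TZ.Weyl
import Pool.Agent.H628R4.TZ.Poly

set_option autoImplicit false

namespace Pool.Agent.H628R4.TZ

open MvPolynomial

variable {r N : ℕ}

/-- the evaluation of the linear form -/
lemma eval_el (v : Fin r → Fin N → ℕ) (i : Fin N) (s : Fin r → ℕ) :
    eval (fun j => (s j : ℂ)) (el v i) = ((∑ j, v j i * s j + 1 : ℕ) : ℂ) := by
  simp [el, Lf, add_comm]

lemma eval_paeval (x : Fin r → ℂ) (g : MvPolynomial (Fin r) ℂ) (p : Polynomial ℂ) :
    eval x (Polynomial.aeval g p) = p.eval (eval x g) := by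
  rw [Polynomial.aeval_def, Polynomial.hom_eval₂]
  have : (eval x).comp (algebraMap ℂ (MvPolynomial (Fin r) ℂ)) = RingHom.id ℂ := by ext; simp
  rw [this, Polynomial.eval₂_id]

lemma eval_maeval (x : Fin r → ℂ) (g : Fin N → MvPolynomial (Fin r) ℂ)
    (p : MvPolynomial (Fin N) ℂ) :
    eval x (aeval g p) = eval (fun i => eval x (g i)) p := by
  induction p using MvPolynomial.induction_on with
  | C a => simp
  | add p q hp hq => rw [map_add, map_add, hp, hq, map_add]
  | mul_X p i hp => rw [map_mul, map_mul, hp, aeval_X, map_mul, eval_X]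

/-- the polynomial `binom(s_j, k)` divided by `s_j` -/
noncomputable def cc (j : Fin r) (k : ℕ) : MvPolynomial (Fin r) ℂ :=
  C ((k.factorial : ℂ)⁻¹) *
    Polynomial.aeval (X j : MvPolynomial (Fin r) ℂ) ((descPochhammer ℂ (k-1)).comp (Polynomial.X - 1))

lemma eval_cc (j : Fin r) (k : ℕ) (hk : 1 ≤ k) (s : Fin r → ℕ) :
    (s j : ℂ) * eval (fun j => (s j : ℂ)) (cc j k) = ((s j).choose k : ℂ) := by
  obtain ⟨k, rfl⟩ : ∃ k', k = k' + 1 := ⟨k - 1, by omega⟩
  have h1 : ((s j).descFactorial (k+1) : ℂ) = ((k+1).factorial : ℂ) * ((s j).choose (k+1) : ℂ) := by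
    exact_mod_cast Nat.descFactorial_eq_factorial_mul_choose (s j) (k+1)
  have h2 := descPochhammer_eval_eq_descFactorial ℂ (s j) (k+1)
  rw [descPochhammer_succ_left, Polynomial.eval_mul, Polynomial.eval_X] at h2
  have h3 : eval (fun j => (s j : ℂ)) (cc j (k+1)) = (((k+1).factorial : ℂ)⁻¹) *
      ((descPochhammer ℂ k).comp (Polynomial.X - 1)).eval (s j : ℂ) := by
    unfold cc
    rw [map_mul, eval_C, eval_paeval, eval_X, Nat.add_sub_cancel]
  have h4 : ((k+1).factorial : ℂ) ≠ 0 := by exact_mod_cast Nat.factorial_ne_zero _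
  rw [h3, mul_left_comm, h2, h1, inv_mul_cancel_left₀ h4]

/-- the polynomial `(ℓ_i + 1) ⋯ (ℓ_i + k)` divided by `ℓ_i + 1` -/
noncomputable def dd (v : Fin r → Fin N → ℕ) (i : Fin N) (k : ℕ) : MvPolynomial (Fin r) ℂ :=
  ∏ m ∈ Finset.range (k-1), (el v i + C ((m:ℂ) + 1))

lemma eval_dd (v : Fin r → Fin N → ℕ) (i : Fin N) (k : ℕ) (hk : 1 ≤ k) (s : Fin r → ℕ) :
    eval (fun j => (s j : ℂ)) (el v i) * eval (fun j => (s j : ℂ)) (dd v i k) =
      ((∑ j, v j i * s j + k).descFactorial k : ℂ) := by
  obtain ⟨k, rfl⟩ : ∃ k', k = k' + 1 := ⟨k - 1, by omega⟩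
  rw [Nat.add_descFactorial_eq_ascFactorial, Nat.ascFactorial_eq_prod_range,
    Finset.prod_range_succ']
  unfold dd
  rw [map_prod, Nat.add_sub_cancel]
  push_cast
  rw [mul_comm]
  congr 1
  · refine Finset.prod_congr rfl fun m _ => ?_
    rw [map_add, eval_C, eval_el]
    push_cast
    ring
  · rw [eval_el]; push_cast; ring

lemma prod_mons (v : Fin r → Fin N → ℕ) (e : Fin r → ℕ) :
    ∏ j, mons v j ^ e j =
      monomial (Finsupp.equivFunOnFinite.symm fun i => ∑ j, v j i * e j) (1:ℂ) := by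
  unfold mons
  simp only [← Finset.prod_pow, ← pow_mul]
  rw [Finset.prod_comm, monomial_eq, C_1, one_mul, Finsupp.prod_fintype _ _ (by simp)]
  exact Finset.prod_congr rfl fun i _ => by rw [Finset.prod_pow_eq_pow_sum]; rfl

/-- The functional equation of a monomial ideal gives the polynomial relation. -/
theorem rel_of_functionalEq (v : Fin r → Fin N → ℕ) (b : Polynomial ℂ)
    (h : IsFunctionalEq (mons v) b) : Rel v b := by
  classical
  obtain ⟨S, P, hS, hP⟩ := h
  choose Q hQ using fun (T : weyl N) =>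
    act_weyl (N := N) (T : Module.End ℂ (MvPolynomial (Fin N) ℂ)) T.2
  -- shift vector
  set u : (Fin r → ℤ) → Fin N → ℤ := fun c i => ∑ j, c j * (v j i : ℤ) with hu
  -- the polynomial of the operator
  set G : (Fin r → ℤ) → MvPolynomial (Fin r) ℂ := fun c =>
    (P c).sum fun β T => monomial β 1 *
      aeval (fun i => el v i - 1 + C ((u c i : ℤ) : ℂ)) (Q T (u c)) with hG
  set q : (Fin r → ℤ) → MvPolynomial (Fin r) ℂ := fun c =>
    (∏ j, if c j < 0 then cc j (-c j).toNat else 1) * G c *
      ∏ i ∈ Bc v c, dd v i (u c i).toNat with hq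
  refine ⟨S, q, hS, ?_⟩
  refine funext_set (fun _ => Set.range (Nat.cast : ℕ → ℂ))
    (fun _ => Set.infinite_range_of_injective Nat.cast_injective) fun x hx => ?_
  choose s hs using fun j => hx j (Set.mem_univ j)
  obtain rfl : x = fun j => (s j : ℂ) := funext fun j => (hs j).symm
  have hs' := hP s
  rw [prod_mons] at hs'
  set n' : Fin N →₀ ℕ := Finsupp.equivFunOnFinite.symm fun i => ∑ j, v j i * s j with hn'
  have h1 := congrArg (coeff n') hs'
  rw [coeff_C_mul, coeff_monomial, if_pos rfl, mul_one, coeff_sum] at h1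
  have h2 : eval (fun j => (s j : ℂ)) (Polynomial.aeval (∑ j, X j : MvPolynomial (Fin r) ℂ) b) =
      b.eval ((∑ j, s j : ℕ) : ℂ) := by
    rw [eval_paeval]
    simp
  rw [h2, h1, map_sum]
  refine Finset.sum_congr rfl fun c hc => ?_
  -- evaluate the right side
  have hmA : eval (fun j => (s j : ℂ)) (monomial (mA c) 1) *
      eval (fun j => (s j : ℂ)) (∏ j, if c j < 0 then cc j (-c j).toNat else 1) =
      ((∏ j, (if c j < 0 then (s j).choose (-c j).toNat else 1) : ℕ) : ℂ) := by
    rw [eval_monomial, one_mul, Finsupp.prod_fintype _ _ (by simp), map_prod,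
      ← Finset.prod_mul_distrib]
    push_cast
    refine Finset.prod_congr rfl fun j _ => ?_
    by_cases hj : c j < 0
    · simp only [mA, Finsupp.equivFunOnFinite_symm_apply_apply, hj, if_true, pow_one]
      exact eval_cc j _ (by omega) s
    · simp [mA, hj]
  have hB : eval (fun j => (s j : ℂ)) (∏ i ∈ Bc v c, el v i) *
      eval (fun j => (s j : ℂ)) (∏ i ∈ Bc v c, dd v i (u c i).toNat) =
      ∏ i ∈ Bc v c, ((∑ j, v j i * s j + (u c i).toNat).descFactorial (u c i).toNat : ℂ) := by
    rw [map_prod, map_prod, ← Finset.prod_mul_distrib]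
    refine Finset.prod_congr rfl fun i hi => ?_
    refine eval_dd v i _ ?_ s
    have : 0 < u c i := by simpa [Bc, hu] using hi
    omega
  have hR : eval (fun j => (s j : ℂ)) ((∏ i ∈ Bc v c, el v i) * (monomial (mA c) 1 * q c)) =
      ((∏ j, (if c j < 0 then (s j).choose (-c j).toNat else 1) : ℕ) : ℂ) *
      (eval (fun j => (s j : ℂ)) (G c) *
      ∏ i ∈ Bc v c, ((∑ j, v j i * s j + (u c i).toNat).descFactorial (u c i).toNat : ℂ)) := by
    rw [← hmA, ← hB, hq]
    simp only [map_mul]
    ring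
  rw [hR]
  by_cases hneg : ∃ j, (s j : ℤ) + c j < 0
  · obtain ⟨j, hj⟩ := hneg
    have hz : (∏ j, (if c j < 0 then (s j).choose (-c j).toNat else 1) : ℕ) = 0 := by
      refine Finset.prod_eq_zero (Finset.mem_univ j) ?_
      rw [if_pos (by omega)]
      exact Nat.choose_eq_zero_of_lt (by omega)
    rw [hz]
    simp [applyAt, Finsupp.sum]
  · push Not at hneg
    set n : Fin N →₀ ℕ := Finsupp.equivFunOnFinite.symm fun i =>
      ∑ j, v j i * ((s j : ℤ) + c j).toNat with hn
    have hnn : ∀ i, (n i : ℤ) = n' i + u c i := by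
      intro i
      rw [hn, hn', hu]
      simp only [Finsupp.equivFunOnFinite_symm_apply_apply]
      push_cast
      rw [← Finset.sum_add_distrib]
      refine Finset.sum_congr rfl fun j _ => ?_
      rw [Int.toNat_of_nonneg (hneg j)]
      ring
    rw [prod_mons, ← hn]
    unfold applyAt
    have hterm : ∀ T : weyl N, (T : Module.End ℂ (MvPolynomial (Fin N) ℂ))
        (C ((∏ j, (if c j < 0 then (s j).choose (-c j).toNat else 1) : ℕ) : ℂ) * monomial n 1) =
        ((∏ j, (if c j < 0 then (s j).choose (-c j).toNat else 1) : ℕ) : ℂ) •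
        (T : Module.End ℂ (MvPolynomial (Fin N) ℂ)) (monomial n 1) := by
      intro T
      rw [C_mul', map_smul]
    simp only [hterm]
    rw [Finsupp.sum, coeff_sum, hG]
    simp only [Finsupp.sum, map_sum, Finset.sum_mul, Finset.mul_sum]
    refine Finset.sum_congr rfl fun β _ => ?_
    rw [coeff_smul, coeff_smul, hQ _ (u c) n n' hnn, smul_eq_mul, smul_eq_mul, map_mul]
    have h5 : eval (fun j => (s j : ℂ)) (monomial β 1) = ∏ j, (s j : ℂ) ^ β j := by
      rw [eval_monomial, one_mul, Finsupp.prod_fintype _ _ (by simp)]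
    have h6 : eval (fun j => (s j : ℂ))
        (aeval (fun i => el v i - 1 + C ((u c i : ℤ) : ℂ)) (Q ((P c) β) (u c))) =
        eval (fun i => (n i : ℂ)) (Q ((P c) β) (u c)) := by
      rw [eval_maeval]
      congr 2
      funext i
      rw [map_add, map_sub, eval_C, eval_el, map_one]
      have h7 := hnn i
      have h8 : (n i : ℂ) = (n' i : ℂ) + ((u c i : ℤ) : ℂ) := by exact_mod_cast h7
      rw [h8, hn']
      simp only [Finsupp.equivFunOnFinite_symm_apply_apply]
      push_cast
      ring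
    have h9 : ∏ i, ((n i).descFactorial (u c i).toNat : ℂ) =
        ∏ i ∈ Bc v c, ((∑ j, v j i * s j + (u c i).toNat).descFactorial (u c i).toNat : ℂ) := by
      rw [← Finset.prod_subset (Finset.subset_univ (Bc v c))]
      · refine Finset.prod_congr rfl fun i hi => ?_
        have h10 : 0 < u c i := by simpa [Bc, hu] using hi
        have h11 := hnn i
        have h12 : n' i = ∑ j, v j i * s j := by simp [hn']
        have h13 : n i = ∑ j, v j i * s j + (u c i).toNat := by omega
        rw [h13]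
      · intro i _ hi
        have h10 : ¬ 0 < u c i := by simpa [Bc, hu] using hi
        have : (u c i).toNat = 0 := by omega
        rw [this]; simp
    rw [h5, h6, h9]
    ring

end Pool.Agent.H628R4.TZ
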