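import Pool.Agent.H628R4.TZ.Step

set_option autoImplicit false

namespace Pool.Agent.H628R4.TZ

open MeasureTheory MvPolynomial Set Filter Topology

/-- smooth step of width `ε` -/
noncomputable def stp (ε : ℝ) (t : ℝ) : ℝ := Real.smoothTransition (t / ε)

noncomputable def ph (ε : ℝ) (k : ℕ) (t : ℝ) : ℝ := (-1) ^ k * iteratedDeriv k (stp ε) t

lemma stp_contDiff (ε : ℝ) : ContDiff ℝ ((⊤ : ℕ∞) : WithTop ℕ∞) (stp ε) := by
  unfold stp
  exact Real.smoothTransition.contDiff.comp (contDiff_id.div_const ε)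

lemma stp_neg (ε : ℝ) (hε : 0 < ε) (t : ℝ) (ht : t ≤ 0) : stp ε t = 0 := by
  unfold stp
  exact Real.smoothTransition.zero_of_nonpos (div_nonpos_of_nonpos_of_nonneg ht hε.le)

lemma stp_big (ε : ℝ) (hε : 0 < ε) (t : ℝ) (ht : ε ≤ t) : stp ε t = 1 := by
  unfold stp
  exact Real.smoothTransition.one_of_one_le ((one_le_div hε).2 ht)

lemma ph_neg (ε : ℝ) (hε : 0 < ε) (k : ℕ) (t : ℝ) (ht : t < 0) : ph ε k t = 0 := by
  unfold ph
  have h1 : stp ε =ᶠ[𝓝 t] fun _ => (0:ℝ) := by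
    filter_upwards [Iio_mem_nhds ht] with u hu
    exact stp_neg ε hε u (le_of_lt hu)
  rw [h1.iteratedDeriv_eq k]
  simp

lemma ph_big (ε : ℝ) (hε : 0 < ε) (k : ℕ) (hk : 1 ≤ k) (t : ℝ) (ht : ε < t) : ph ε k t = 0 := by
  unfold ph
  have h1 : stp ε =ᶠ[𝓝 t] fun _ => (1:ℝ) := by
    filter_upwards [Ioi_mem_nhds ht] with u hu
    exact stp_big ε hε u (le_of_lt hu)
  rw [h1.iteratedDeriv_eq k, iteratedDeriv_const]
  have : k ≠ 0 := by omega
  simp [this]

lemma ph_zero (ε : ℝ) (t : ℝ) : ph ε 0 t = stp ε t := by simp [ph]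

lemma ph_dseq (ε : ℝ) (hε : 0 < ε) : DSeq (ph ε) where
  deriv k t := by
    unfold ph
    have h1 : Differentiable ℝ (iteratedDeriv k (stp ε)) :=
      (stp_contDiff ε).differentiable_iteratedDeriv k (by exact_mod_cast ENat.coe_lt_top k)
    have h2 := (h1 t).hasDerivAt
    rw [← iteratedDeriv_succ] at h2
    refine (h2.const_mul ((-1:ℝ) ^ k)).congr_deriv ?_
    ring
  bdd k := by
    have hc : Continuous (ph ε k) := by
      unfold ph
      exact continuous_const.mul ((stp_contDiff ε).continuous_iteratedDeriv k (by exact_mod_cast le_top))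
    obtain ⟨K, hK⟩ := (isCompact_Icc (a := (0:ℝ)) (b := ε)).exists_bound_of_continuousOn
      hc.continuousOn
    refine ⟨max K 1, fun t => ?_⟩
    rcases lt_or_ge t 0 with h0 | h0
    · rw [ph_neg ε hε k t h0]; simp
    rcases lt_or_ge ε t with h1 | h1
    · rcases Nat.eq_zero_or_pos k with hk | hk
      · subst hk
        rw [ph_zero, stp_big ε hε t h1.le]; simp
      · rw [ph_big ε hε k hk t h1]; simp
    · exact (hK t ⟨h0, h1⟩).trans (le_max_left _ _)

variable {r N : ℕ}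

/-- The indicator multi-index of the negative entries. -/
noncomputable def mA (c : Fin r → ℤ) : Fin r →₀ ℕ :=
  Finsupp.equivFunOnFinite.symm fun j => if c j < 0 then 1 else 0

def av (v : Fin r → Fin N → ℕ) (j : Fin r) : Fin (N+1) → ℝ :=
  Fin.cons (-1) (fun i => (v j i : ℝ))

lemma Y_av (v : Fin r → Fin N → ℕ) (T : ℝ) (x : Fin (N+1) → ℝ) (j : Fin r) :
    Y (av v) (fun _ => -T) x j = ∑ i, (v j i : ℝ) * x i.succ - x 0 - T := by
  unfold Y av
  rw [Fin.sum_univ_succ]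
  simp only [Fin.cons_zero, Fin.cons_succ]
  ring

lemma W_zero (v : Fin r → Fin N → ℕ) (c : Fin r → ℤ) (hc : ∑ j, c j = 1) (ε T : ℝ) (hε : 0 < ε)
    (hT : ε * ∑ j, |(c j : ℝ)| < T) (x : Fin (N+1) → ℝ) (hx : ∀ i, 0 ≤ x i)
    (hx0 : ∀ i : Fin N, 0 < ∑ j, c j * (v j i : ℤ) → x i.succ = 0)
    (k : Fin r →₀ ℕ) (hk : ∀ j, c j < 0 → 1 ≤ k j) :
    W (ph ε) k (Y (av v) (fun _ => -T) x) = 0 := by
  by_contra hne
  unfold W at hne
  rw [Finset.prod_eq_zero_iff] at hne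
  push Not at hne
  set y := Y (av v) (fun _ => -T) x with hy
  have h1 : ∀ j, 0 ≤ y j := by
    intro j
    by_contra h
    exact hne j (Finset.mem_univ _) (ph_neg ε hε _ _ (not_le.1 h))
  have h2 : ∀ j, c j < 0 → y j ≤ ε := by
    intro j hj
    by_contra h
    exact hne j (Finset.mem_univ _) (ph_big ε hε _ (hk j hj) _ (not_le.1 h))
  have h3 : -(ε * ∑ j, |(c j : ℝ)|) ≤ ∑ j, (c j : ℝ) * y j := by
    rw [Finset.mul_sum, ← Finset.sum_neg_distrib]
    refine Finset.sum_le_sum fun j _ => ?_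
    rcases lt_or_ge (c j) 0 with h | h
    · have h' : (c j : ℝ) < 0 := by exact_mod_cast h
      rw [abs_of_neg h']
      nlinarith [h2 j h]
    · have h' : (0:ℝ) ≤ c j := by exact_mod_cast h
      rw [abs_of_nonneg h']
      nlinarith [h1 j, mul_nonneg h' (h1 j), mul_nonneg hε.le h']
  have hcR : ∑ j, (c j : ℝ) = 1 := by exact_mod_cast hc
  have h4 : ∑ j, (c j : ℝ) * y j = ∑ i : Fin N, (∑ j, (c j : ℝ) * v j i) * x i.succ - (x 0 + T) := by
    have : ∀ j, (c j : ℝ) * y j = ∑ i, (c j : ℝ) * v j i * x i.succ - (c j : ℝ) * (x 0 + T) := by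
      intro j
      rw [hy, Y_av, sub_sub, mul_sub, Finset.mul_sum]
      congr 1
      exact Finset.sum_congr rfl fun i _ => by ring
    simp only [this]
    rw [Finset.sum_sub_distrib, ← Finset.sum_mul, hcR, one_mul, Finset.sum_comm]
    congr 1
    exact Finset.sum_congr rfl fun i _ => by rw [Finset.sum_mul]
  have h5 : ∑ i : Fin N, (∑ j, (c j : ℝ) * v j i) * x i.succ ≤ 0 := by
    refine Finset.sum_nonpos fun i _ => ?_
    rcases lt_or_ge 0 (∑ j, c j * (v j i : ℤ)) with h | h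
    · rw [hx0 i h, mul_zero]
    · have h' : (∑ j, (c j : ℝ) * v j i) ≤ 0 := by exact_mod_cast h
      exact mul_nonpos_of_nonpos_of_nonneg h' (hx _)
  have h6 := hx 0
  linarith

lemma D_zero (v : Fin r → Fin N → ℕ) (c : Fin r → ℤ) (hc : ∑ j, c j = 1) (ε T : ℝ) (hε : 0 < ε)
    (hT : ε * ∑ j, |(c j : ℝ)| < T) (x : Fin (N+1) → ℝ) (hx : ∀ i, 0 ≤ x i)
    (hx0 : ∀ i : Fin N, 0 < ∑ j, c j * (v j i : ℤ) → x i.succ = 0)
    (q : MvPolynomial (Fin r) ℂ) :
    D (ph ε) (Y (av v) (fun _ => -T) x) (monomial (mA c) 1 * q) = 0 := by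
  induction q using MvPolynomial.induction_on' with
  | monomial u a =>
    rw [monomial_mul, D_monomial, W_zero v c hc ε T hε hT x hx hx0]
    · simp
    · intro j hj
      simp [mA, hj]
  | add p q hp hq => rw [mul_add, map_add, hp, hq, add_zero]

noncomputable def lm (s : ℝ) : Fin (N+1) → ℝ := Fin.cons s (fun _ => 1)

lemma lm_pos (s : ℝ) (hs : 0 < s) (i : Fin (N+1)) : 0 < lm (N := N) s i := by
  unfold lm
  refine Fin.cases ?_ (fun j => ?_) i <;> simp [hs]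

/-- `1 + ℓ_i` -/
noncomputable def el (v : Fin r → Fin N → ℕ) (i : Fin N) : MvPolynomial (Fin r) ℂ :=
  1 + Lf (fun j => (v j i : ℝ))

def Bc (v : Fin r → Fin N → ℕ) (c : Fin r → ℤ) : Finset (Fin N) :=
  Finset.univ.filter fun i => 0 < ∑ j, c j * (v j i : ℤ)

lemma Φ_rel_zero (v : Fin r → Fin N → ℕ) (c : Fin r → ℤ) (hc : ∑ j, c j = 1) (ε T : ℝ)
    (hε : 0 < ε) (hT : ε * ∑ j, |(c j : ℝ)| < T) (s : ℝ) (hs : 0 < s)
    (q : MvPolynomial (Fin r) ℂ) :
    Φ (ph ε) ∅ (lm (N := N) s) (av v) (fun _ => -T)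
      ((∏ i ∈ Bc v c, el v i) * (monomial (mA c) 1 * q)) = 0 := by
  have h1 : (∏ i ∈ Bc v c, el v i) = ∏ i ∈ (Bc v c).map (Fin.succEmb N),
      (C ((lm (N := N) s i : ℝ) : ℂ) + Lf (fun j => av v j i)) := by
    rw [Finset.prod_map]
    refine Finset.prod_congr rfl fun i _ => ?_
    simp [el, lm, av]
  rw [h1, Φ_steps (ph_dseq ε hε) ∅ _ (lm_pos s hs) _ _ _ (by simp)]
  refine Φ_eq_zero _ _ _ _ _ fun x hx hx0 => ?_
  refine D_zero v c hc ε T hε hT x hx (fun i hi => hx0 _ ?_) q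
  simp only [Finset.union_empty, Finset.mem_map]
  exact ⟨i, by simp [Bc, hi], rfl⟩

end Pool.Agent.H628R4.TZ
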