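import Pool.Agent.H628R4.TZ.Defs

set_option autoImplicit false

namespace Pool.Agent.H628R4.TZ

open MvPolynomial

variable {N : ℕ}

/-- the action of an operator on monomials -/
def Act (P : Module.End ℂ (MvPolynomial (Fin N) ℂ)) : Prop :=
  ∃ Q : (Fin N → ℤ) → MvPolynomial (Fin N) ℂ, ∀ (u : Fin N → ℤ) (n n' : Fin N →₀ ℕ),
    (∀ i, (n i : ℤ) = n' i + u i) →
    coeff n' (P (monomial n 1)) =
      eval (fun i => (n i : ℂ)) (Q u) * ∏ i, ((n i).descFactorial (u i).toNat : ℂ)

lemma act_one : Act (1 : Module.End ℂ (MvPolynomial (Fin N) ℂ)) := by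
  refine ⟨fun u => if u = 0 then 1 else 0, fun u n n' h => ?_⟩
  rw [Module.End.one_apply, coeff_monomial]
  by_cases hu : u = 0
  · subst hu
    have : n = n' := by
      ext i
      have := h i
      simp at this
      exact_mod_cast this
    simp [this]
  · have : n ≠ n' := by
      rintro rfl
      apply hu
      funext i
      have := h i
      simp at this
      exact this
    simp [this, hu]

lemma act_add {P Q : Module.End ℂ (MvPolynomial (Fin N) ℂ)} (hP : Act P) (hQ : Act Q) :
    Act (P + Q) := by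
  obtain ⟨p, hp⟩ := hP
  obtain ⟨q, hq⟩ := hQ
  refine ⟨fun u => p u + q u, fun u n n' h => ?_⟩
  rw [LinearMap.add_apply, coeff_add, hp u n n' h, hq u n n' h, map_add, add_mul]

lemma act_zero : Act (0 : Module.End ℂ (MvPolynomial (Fin N) ℂ)) :=
  ⟨fun _ => 0, fun u n n' _ => by simp⟩

lemma act_smul {P : Module.End ℂ (MvPolynomial (Fin N) ℂ)} (a : ℂ) (hP : Act P) :
    Act (a • P) := by
  obtain ⟨p, hp⟩ := hP
  refine ⟨fun u => C a * p u, fun u n n' h => ?_⟩
  rw [LinearMap.smul_apply, coeff_smul, hp u n n' h, map_mul, eval_C, smul_eq_mul, mul_assoc]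

lemma prod_desc (n : Fin N →₀ ℕ) (u u' : Fin N → ℤ) (i : Fin N) (h : ∀ l, l ≠ i → u l = u' l)
    (x : ℂ) (hx : ((n i).descFactorial (u i).toNat : ℂ) = x * ((n i).descFactorial (u' i).toNat : ℂ)) :
    ∏ l, ((n l).descFactorial (u l).toNat : ℂ) = x * ∏ l, ((n l).descFactorial (u' l).toNat : ℂ) := by
  rw [← Finset.mul_prod_erase _ _ (Finset.mem_univ i), hx,
    ← Finset.mul_prod_erase Finset.univ (fun l => ((n l).descFactorial (u' l).toNat : ℂ))
      (Finset.mem_univ i), mul_assoc]
  congr 2
  refine Finset.prod_congr rfl fun l hl => ?_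
  rw [h l (Finset.ne_of_mem_erase hl)]

lemma act_X (i : Fin N) {P : Module.End ℂ (MvPolynomial (Fin N) ℂ)} (hP : Act P) :
    Act (LinearMap.mulLeft ℂ (X i : MvPolynomial (Fin N) ℂ) * P) := by
  classical
  obtain ⟨q, hq⟩ := hP
  refine ⟨fun u => q (u + Pi.single i 1) * (if 0 ≤ u i then X i - C ((u i : ℤ) : ℂ) else 1),
    fun u n n' h => ?_⟩
  rw [Module.End.mul_apply, LinearMap.mulLeft_apply, coeff_X_mul']
  have hni := h i
  set w : Fin N → ℤ := u + Pi.single i 1 with hw
  have hwi : w i = u i + 1 := by rw [hw, Pi.add_apply, Pi.single_eq_same]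
  have hwl : ∀ l, l ≠ i → w l = u l := fun l hl => by
    rw [hw, Pi.add_apply, Pi.single_eq_of_ne hl, add_zero]
  have hdesc : ∏ l, ((n l).descFactorial (w l).toNat : ℂ) =
      (if 0 ≤ u i then (n i : ℂ) - ((u i : ℤ) : ℂ) else 1) *
        ∏ l, ((n l).descFactorial (u l).toNat : ℂ) := by
    refine prod_desc n w u i hwl _ ?_
    rw [hwi]
    split_ifs with hu
    · obtain ⟨k, hk⟩ := Int.eq_ofNat_of_zero_le hu
      have h1 : (u i + 1).toNat = k + 1 := by omega
      have h2 : (u i).toNat = k := by omega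
      rw [h1, h2, Nat.descFactorial_succ, hk]
      have h3 : k ≤ n i := by omega
      push_cast [Nat.cast_sub h3]
      simp
    · have h1 : (u i + 1).toNat = 0 := by omega
      have h2 : (u i).toNat = 0 := by omega
      rw [h1, h2]; simp
  split_ifs with h0
  · have h1 : n' i ≠ 0 := by simpa using h0
    rw [hq w n (n' - Finsupp.single i 1) ?_, hdesc]
    · rw [map_mul]
      by_cases hu : 0 ≤ u i
      · simp only [hu, if_true, map_sub, eval_X, eval_C]; ring
      · simp only [hu, if_false, map_one]; ring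
    · intro l
      rw [Finsupp.tsub_apply]
      by_cases hl : l = i
      · rw [hl, Finsupp.single_eq_same, hwi]
        omega
      · rw [Finsupp.single_eq_of_ne hl, hwl l hl]
        have := h l
        omega
  · have h1 : n' i = 0 := by simpa using h0
    have hu : 0 ≤ u i := by omega
    have h2 : (n i : ℂ) - ((u i : ℤ) : ℂ) = 0 := by
      have : (n i : ℤ) = u i := by omega
      rw [sub_eq_zero]
      exact_mod_cast this
    rw [map_mul]
    simp only [hu, if_true, map_sub, eval_X, eval_C, h2, mul_zero, zero_mul]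

lemma act_D (i : Fin N) {P : Module.End ℂ (MvPolynomial (Fin N) ℂ)} (hP : Act P) :
    Act (((pderiv i : Derivation ℂ (MvPolynomial (Fin N) ℂ)
        (MvPolynomial (Fin N) ℂ)) : MvPolynomial (Fin N) ℂ →ₗ[ℂ] MvPolynomial (Fin N) ℂ) * P) := by
  classical
  obtain ⟨q, hq⟩ := hP
  refine ⟨fun u => q (u - Pi.single i 1) * (if 0 < u i then 1 else X i - C ((u i : ℤ) : ℂ) + 1),
    fun u n n' h => ?_⟩
  rw [Module.End.mul_apply]
  have hni := h i
  have h0 : coeff n' (((pderiv i : Derivation ℂ (MvPolynomial (Fin N) ℂ)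
        (MvPolynomial (Fin N) ℂ)) : MvPolynomial (Fin N) ℂ →ₗ[ℂ] MvPolynomial (Fin N) ℂ)
        (P (monomial n 1))) = coeff (n' + Finsupp.single i 1) (P (monomial n 1)) * (n' i + 1) := by
    exact coeff_pderiv _ _
  set w : Fin N → ℤ := u - Pi.single i 1 with hw
  have hwi : w i = u i - 1 := by rw [hw, Pi.sub_apply, Pi.single_eq_same]
  have hwl : ∀ l, l ≠ i → w l = u l := fun l hl => by
    rw [hw, Pi.sub_apply, Pi.single_eq_of_ne hl, sub_zero]
  rw [h0, hq w n (n' + Finsupp.single i 1) ?_]
  · have hdesc : ∏ l, ((n l).descFactorial (u l).toNat : ℂ) =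
        (if 0 < u i then (n' i : ℂ) + 1 else 1) *
          ∏ l, ((n l).descFactorial (w l).toNat : ℂ) := by
      refine prod_desc n u w i (fun l hl => (hwl l hl).symm) _ ?_
      rw [hwi]
      split_ifs with hu
      · obtain ⟨k, hk⟩ := Int.eq_ofNat_of_zero_le (show 0 ≤ u i - 1 by omega)
        have h1 : (u i).toNat = k + 1 := by omega
        have h2 : (u i - 1).toNat = k := by omega
        rw [h1, h2, Nat.descFactorial_succ]
        have h3 : n i - k = n' i + 1 := by omega
        rw [h3]
        push_cast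
        ring
      · have h1 : (u i - 1).toNat = 0 := by omega
        have h2 : (u i).toNat = 0 := by omega
        rw [h1, h2]; simp
    rw [hdesc, map_mul]
    by_cases hu : 0 < u i
    · simp only [hu, if_true, map_one]; ring
    · simp only [hu, if_false, map_add, map_sub, map_one, eval_X, eval_C]
      have h4 : (n i : ℂ) = n' i + ((u i : ℤ) : ℂ) := by exact_mod_cast hni
      rw [h4]
      ring
  · intro l
    rw [Finsupp.add_apply]
    by_cases hl : l = i
    · rw [hl, Finsupp.single_eq_same, hwi]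
      push_cast
      omega
    · rw [Finsupp.single_eq_of_ne hl, hwl l hl]
      have := h l
      push_cast
      omega

lemma act_weyl (P : Module.End ℂ (MvPolynomial (Fin N) ℂ)) (hP : P ∈ weyl N) : Act P := by
  have h1 : P ∈ Subalgebra.toSubmodule (weyl N) := hP
  unfold weyl at h1
  rw [Algebra.adjoin_eq_span] at h1
  clear hP
  induction h1 using Submodule.span_induction with
  | mem x hx =>
    induction hx using Submonoid.closure_induction_left with
    | one => exact act_one
    | mul_left x hx y hy ih =>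
      rcases hx with ⟨i, rfl⟩ | ⟨i, rfl⟩
      · exact act_X i (ih)
      · exact act_D i (ih)
  | zero => exact act_zero
  | add x y _ _ hx hy => exact act_add (hx) (hy)
  | smul a x _ hx => exact act_smul a (hx)

end Pool.Agent.H628R4.TZ
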